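import Mathlib

/-!
# Hadamard products and private identity blocks: linear algebra
-/

set_option autoImplicit false

namespace Pool.Agent.X246.HDM

open Finset

/-- Rank factorization. -/
theorem rank_factor {m n k : ℕ} (W : Matrix (Fin m) (Fin n) ℝ) (h : W.rank = k) :
    ∃ (A : Fin m → Fin k → ℝ) (B : Fin n → Fin k → ℝ), ∀ i j, W i j = ∑ c, A i c * B j c := by
  have hV : Module.finrank ℝ (LinearMap.range W.mulVecLin) = k := h
  let b : Module.Basis (Fin k) ℝ (LinearMap.range W.mulVecLin) :=
    Module.finBasisOfFinrankEq ℝ _ hV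
  have hm : ∀ j, W.mulVecLin (Pi.single j 1) ∈ LinearMap.range W.mulVecLin :=
    fun j => LinearMap.mem_range_self _ _
  refine ⟨fun i c => (b c : Fin m → ℝ) i, fun j c => b.repr ⟨_, hm j⟩ c, fun i j => ?_⟩
  have h1 := b.sum_repr ⟨_, hm j⟩
  have h2 := congrArg (fun v : LinearMap.range W.mulVecLin => (v : Fin m → ℝ) i) h1
  simp only [Submodule.coe_sum, Submodule.coe_smul, Finset.sum_apply, Pi.smul_apply,
    smul_eq_mul] at h2
  have h3 : (W.mulVecLin (Pi.single j 1)) i = W i j := by
    rw [Matrix.mulVecLin_apply, Matrix.mulVec_single_one]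
    rfl
  rw [← h3, ← h2]
  refine Finset.sum_congr rfl fun c _ => ?_
  ring

/-- Parallel vectors. -/
def Par {α : Type} (u v : α → ℝ) : Prop := ∀ c c', u c * v c' = u c' * v c

theorem Par.refl {α : Type} (u : α → ℝ) : Par u u := fun c c' => mul_comm _ _

theorem Par.symm {α : Type} {u v : α → ℝ} (h : Par u v) : Par v u := by
  intro c c'
  have := h c' c
  linarith

theorem Par.trans {α : Type} {u v w : α → ℝ} (h1 : Par u v) (h2 : Par v w) (hv : v ≠ 0) :
    Par u w := by
  obtain ⟨e, he⟩ := Function.ne_iff.1 hv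
  simp only [Pi.zero_apply] at he
  intro c c'
  have e1 := h1 c e
  have e2 := h1 c' e
  have e3 := h2 c c'
  have h3 : v e * (u c * w c' - u c' * w c) = 0 := by
    linear_combination w c' * e1 - w c * e2 + u e * e3
  rcases mul_eq_zero.1 h3 with h | h
  · exact absurd h he
  · exact sub_eq_zero.1 h

theorem Par.scalar {α : Type} {u v : α → ℝ} (h : Par u v) (hv : v ≠ 0) :
    ∃ t : ℝ, ∀ c, u c = t * v c := by
  obtain ⟨e, he⟩ := Function.ne_iff.1 hv
  simp only [Pi.zero_apply] at he
  refine ⟨u e / v e, fun c => ?_⟩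
  have h1 := h c e
  field_simp
  linarith

theorem par_or {α β : Type} {u u' u'' : α → ℝ} {s s' s'' : β → ℝ}
    (h : ∀ c d, u'' c * s'' d = u c * s d + u' c * s' d) : Par u u' ∨ Par s s' := by
  by_contra hc
  rw [not_or] at hc
  obtain ⟨h1, h2⟩ := hc
  unfold Par at h1 h2
  push Not at h1 h2
  obtain ⟨c, c', h1⟩ := h1
  obtain ⟨d, d', h2⟩ := h2
  have h3 : (u c * u' c' - u c' * u' c) * (s d * s' d' - s d' * s' d) = 0 := by
    have e1 := h c d
    have e2 := h c' d'
    have e3 := h c d'
    have e4 := h c' d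
    have h5 : (u'' c * s'' d) * (u'' c' * s'' d') = (u'' c * s'' d') * (u'' c' * s'' d) := by
      ring
    rw [e1, e2, e3, e4] at h5
    linear_combination h5
  rcases mul_eq_zero.1 h3 with h | h
  · exact h1 (sub_eq_zero.1 h)
  · exact h2 (sub_eq_zero.1 h)

theorem dich {ι α β : Type} (P : ι → α → ℝ) (S : ι → β → ℝ) (hP : ∀ i, P i ≠ 0)
    (hS : ∀ i, S i ≠ 0) (h : ∀ i j, Par (P i) (P j) ∨ Par (S i) (S j)) :
    (∀ i j, Par (P i) (P j)) ∨ ∀ i j, Par (S i) (S j) := by
  by_cases h0 : ∀ i j, Par (P i) (P j)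
  · exact Or.inl h0
  · right
    push Not at h0
    obtain ⟨i, j, hij⟩ := h0
    have h1 : Par (S i) (S j) := (h i j).resolve_left hij
    have h2 : ∀ x, Par (S i) (S x) := by
      intro x
      rcases h i x with h3 | h3
      · rcases h x j with h4 | h4
        · exact absurd (h3.trans h4 (hP x)) hij
        · exact h1.trans h4.symm (hS j)
      · exact h3
    intro x y
    exact (h2 x).symm.trans (h2 y) (hS i)

theorem ne_zero_of_left {K r : ℕ} {p q : Fin K → ℝ} {s t : Fin r → ℝ}
    (h : (∑ c, p c * q c) * (∑ d, s d * t d) = 1) : p ≠ 0 ∧ s ≠ 0 ∧ q ≠ 0 := by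
  refine ⟨?_, ?_, ?_⟩
  · rintro rfl
    simp at h
  · rintro rfl
    simp at h
  · rintro rfl
    simp at h

/-- If all first factors are parallel, then the block is small. -/
theorem card_le {K r : ℕ} {P Q : Fin K → Fin K → ℝ} {S T : Fin K → Fin r → ℝ}
    (h : ∀ l l', (∑ c, P l c * Q l' c) * (∑ d, S l d * T l' d) = if l = l' then 1 else 0)
    (hp : ∀ l l', Par (P l) (P l')) : K ≤ r := by
  rcases Nat.eq_zero_or_pos K with h0 | hK
  · omega
  have hz : P ⟨0, hK⟩ ≠ 0 := by
    have h1 := h ⟨0, hK⟩ ⟨0, hK⟩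
    rw [if_pos rfl] at h1
    exact (ne_zero_of_left h1).1
  choose t ht using fun l => (hp l ⟨0, hK⟩).scalar hz
  have hli : LinearIndependent ℝ (fun l : Fin K => (fun d => t l * S l d : Fin r → ℝ)) := by
    rw [Fintype.linearIndependent_iff]
    intro g hg i
    have e1 : ∑ l, g l * ((∑ c, P l c * Q i c) * (∑ d, S l d * T i d)) = g i := by
      rw [Finset.sum_eq_single i]
      · rw [h i i, if_pos rfl, mul_one]
      · intro l _ hl
        rw [h l i, if_neg hl, mul_zero]
      · intro hn
        exact absurd (Finset.mem_univ _) hn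
    rw [← e1]
    have e2 : ∀ l, ∑ c, P l c * Q i c = t l * ∑ c, P ⟨0, hK⟩ c * Q i c := by
      intro l
      rw [Finset.mul_sum]
      refine Finset.sum_congr rfl fun c _ => ?_
      rw [ht l c]
      ring
    have e3 : ∀ d, ∑ l, g l * (t l * S l d) = 0 := by
      intro d
      have := congrFun hg d
      rw [Finset.sum_apply] at this
      simpa using this
    calc ∑ l, g l * ((∑ c, P l c * Q i c) * (∑ d, S l d * T i d))
        = ∑ l, ∑ d, (∑ c, P ⟨0, hK⟩ c * Q i c) * (g l * (t l * S l d) * T i d) := by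
          refine Finset.sum_congr rfl fun l _ => ?_
          rw [e2 l, Finset.mul_sum, Finset.mul_sum]
          refine Finset.sum_congr rfl fun d _ => ?_
          ring
      _ = ∑ d, (∑ c, P ⟨0, hK⟩ c * Q i c) * ((∑ l, g l * (t l * S l d)) * T i d) := by
          rw [Finset.sum_comm]
          refine Finset.sum_congr rfl fun d _ => ?_
          rw [← Finset.mul_sum, ← Finset.sum_mul]
      _ = 0 := by
          refine Finset.sum_eq_zero fun d _ => ?_
          rw [e3 d]
          ring
  have := hli.fintype_card_le_finrank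
  simpa using this

/-- A block all of whose second factors are parallel is a frame. -/
theorem block {K r : ℕ} {P Q : Fin K → Fin K → ℝ} {S T : Fin K → Fin r → ℝ}
    (h : ∀ l l', (∑ c, P l c * Q l' c) * (∑ d, S l d * T l' d) = if l = l' then 1 else 0)
    (hs : ∀ l l', Par (S l) (S l')) :
    (∀ l l', ∑ d, S l d * T l' d ≠ 0) ∧
    ∀ u v : Fin K → ℝ, ∑ c, u c * v c =
      ∑ l, (∑ c, u c * Q l c) * (∑ d, S l d * T l d) * (∑ c, P l c * v c) := by
  have hself : ∀ l, (∑ c, P l c * Q l c) * (∑ d, S l d * T l d) = 1 := by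
    intro l
    rw [h l l, if_pos rfl]
  have hne : ∀ l l', ∑ d, S l d * T l' d ≠ 0 := by
    intro l l' h0
    obtain ⟨t, ht⟩ := (hs l' l).scalar (ne_zero_of_left (hself l)).2.1
    have h1 : ∑ d, S l' d * T l' d = t * ∑ d, S l d * T l' d := by
      rw [Finset.mul_sum]
      refine Finset.sum_congr rfl fun d _ => ?_
      rw [ht d]
      ring
    have h2 := hself l'
    rw [h1, h0, mul_zero, mul_zero] at h2
    exact zero_ne_one h2
  refine ⟨hne, ?_⟩
  let A : Matrix (Fin K) (Fin K) ℝ := Matrix.of fun l c => P l c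
  let B : Matrix (Fin K) (Fin K) ℝ := Matrix.of fun c l => Q l c * ∑ d, S l d * T l d
  have hAB : A * B = 1 := by
    ext l l'
    rw [Matrix.mul_apply, Matrix.one_apply]
    have h1 : ∑ c, A l c * B c l' = (∑ c, P l c * Q l' c) * ∑ d, S l' d * T l' d := by
      rw [Finset.sum_mul]
      refine Finset.sum_congr rfl fun c _ => ?_
      simp only [A, B, Matrix.of_apply]
      ring
    rw [h1]
    by_cases hl : l = l'
    · subst hl
      rw [if_pos rfl, hself]
    · rw [if_neg hl]
      have h2 := h l l'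
      rw [if_neg hl] at h2
      rw [(mul_eq_zero.1 h2).resolve_right (hne l l'), zero_mul]
  have hBA : B * A = 1 := mul_eq_one_comm.1 hAB
  intro u v
  have h3 : u ⬝ᵥ v = (Matrix.vecMul u B) ⬝ᵥ (A.mulVec v) := by
    rw [← Matrix.dotProduct_mulVec, Matrix.mulVec_mulVec, hBA, Matrix.one_mulVec]
  calc ∑ c, u c * v c = u ⬝ᵥ v := rfl
    _ = _ := h3
    _ = _ := by
      rw [dotProduct]
      refine Finset.sum_congr rfl fun l _ => ?_
      congr 1
      rw [Matrix.vecMul, dotProduct, Finset.sum_mul]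
      refine Finset.sum_congr rfl fun c _ => ?_
      simp only [B, Matrix.of_apply]
      ring

/-- The private block: every elementary tensor is expanded in the private rows. -/
theorem expand {K r : ℕ} {P Q : Fin K × Fin r → Fin K → ℝ} {S T : Fin K × Fin r → Fin r → ℝ}
    (h : ∀ p q, (∑ c, P p c * Q q c) * (∑ d, S p d * T q d) = if p = q then 1 else 0)
    (u : Fin K → ℝ) (s : Fin r → ℝ) (c : Fin K) (d : Fin r) :
    u c * s d = ∑ p, ((∑ c, u c * Q p c) * ∑ d, s d * T p d) * (P p c * S p d) := by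
  let X : Matrix (Fin K × Fin r) (Fin K × Fin r) ℝ := Matrix.of fun p e => P p e.1 * S p e.2
  let Y : Matrix (Fin K × Fin r) (Fin K × Fin r) ℝ := Matrix.of fun e p => Q p e.1 * T p e.2
  have hprod : ∀ (u : Fin K → ℝ) (s : Fin r → ℝ) p,
      ∑ e : Fin K × Fin r, (u e.1 * s e.2) * (Q p e.1 * T p e.2) =
        (∑ c, u c * Q p c) * ∑ d, s d * T p d := by
    intro u s p
    rw [Fintype.sum_prod_type, Finset.sum_mul_sum]
    refine Finset.sum_congr rfl fun c _ => Finset.sum_congr rfl fun d _ => ?_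
    ring
  have hXY : X * Y = 1 := by
    ext p q
    rw [Matrix.mul_apply, Matrix.one_apply, ← h p q, ← hprod]
    rfl
  have hYX : Y * X = 1 := mul_eq_one_comm.1 hXY
  let x : Fin K × Fin r → ℝ := fun e => u e.1 * s e.2
  have hx : x = Matrix.vecMul (Matrix.vecMul x Y) X := by
    rw [Matrix.vecMul_vecMul, hYX, Matrix.vecMul_one]
  have h1 := congrFun hx (c, d)
  rw [Matrix.vecMul, dotProduct] at h1
  change u c * s d = _ at h1
  rw [h1]
  refine Finset.sum_congr rfl fun p _ => ?_
  congr 1
  rw [← hprod]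
  rfl

/-- Private rows and columns with the sums inside the blocks. -/
structure Frame (K r : ℕ) (P Q : Fin K × Fin r → Fin K → ℝ) (S T : Fin K × Fin r → Fin r → ℝ) :
    Prop where
  dual : ∀ p q, (∑ c, P p c * Q q c) * (∑ d, S p d * T q d) = if p = q then 1 else 0
  pairs : ∀ β l l', ∃ (u : Fin K → ℝ) (s : Fin r → ℝ),
    ∀ c d, u c * s d = P (l, β) c * S (l, β) d + P (l', β) c * S (l', β) d

section frame

variable {K r : ℕ} {P Q : Fin K × Fin r → Fin K → ℝ} {S T : Fin K × Fin r → Fin r → ℝ}

theorem Frame.self (h : Frame K r P Q S T) (p : Fin K × Fin r) :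
    (∑ c, P p c * Q p c) * (∑ d, S p d * T p d) = 1 := by
  rw [h.dual p p, if_pos rfl]

theorem Frame.par (h : Frame K r P Q S T) (hr : r < K) (β : Fin r) (l l' : Fin K) :
    Par (S (l, β)) (S (l', β)) := by
  have h1 := dich (fun l => P (l, β)) (fun l => S (l, β))
    (fun l => (ne_zero_of_left (h.self (l, β))).1)
    (fun l => (ne_zero_of_left (h.self (l, β))).2.1)
    (fun i j => by
      obtain ⟨u, s, hus⟩ := h.pairs β i j
      exact par_or hus)
  rcases h1 with h1 | h1
  · exfalso
    have h2 := card_le (P := fun l => P (l, β)) (Q := fun l => Q (l, β)) (S := fun l => S (l, β))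
      (T := fun l => T (l, β)) (fun l l' => by
        rw [h.dual]
        simp only [Prod.mk.injEq, and_true]) h1
    omega
  · exact h1 l l'

theorem Frame.blk (h : Frame K r P Q S T) (hr : r < K) (β : Fin r) :
    (∀ l l', ∑ d, S (l, β) d * T (l', β) d ≠ 0) ∧
    ∀ u v : Fin K → ℝ, ∑ c, u c * v c =
      ∑ l, (∑ c, u c * Q (l, β) c) * (∑ d, S (l, β) d * T (l, β) d) *
        (∑ c, P (l, β) c * v c) :=
  block (P := fun l => P (l, β)) (Q := fun l => Q (l, β)) (S := fun l => S (l, β))
      (T := fun l => T (l, β)) (fun l l' => by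
        rw [h.dual]
        simp only [Prod.mk.injEq, and_true]) (h.par hr β)

theorem Frame.orth (h : Frame K r P Q S T) (hr : r < K) (β : Fin r) {l l' : Fin K}
    (hl : l ≠ l') : ∑ c, P (l, β) c * Q (l', β) c = 0 := by
  have h1 := h.dual (l, β) (l', β)
  rw [if_neg (fun e => hl (congrArg Prod.fst e))] at h1
  exact (mul_eq_zero.1 h1).resolve_right ((h.blk hr β).1 l l')

theorem Frame.cross (h : Frame K r P Q S T) (hr : r < K) {β β' : Fin r} (hβ : β ≠ β')
    (l l' : Fin K) : ∑ d, S (l, β) d * T (l', β') d = 0 := by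
  by_contra h0
  have h1 : ∀ k, ∑ c, P (k, β) c * Q (l', β') c = 0 := by
    intro k
    have h2 := h.dual (k, β) (l', β')
    rw [if_neg (fun e => hβ (congrArg Prod.snd e))] at h2
    refine (mul_eq_zero.1 h2).resolve_right fun h3 => h0 ?_
    obtain ⟨t, ht⟩ := (h.par hr β l k).scalar (ne_zero_of_left (h.self (k, β))).2.1
    have h4 : ∑ d, S (l, β) d * T (l', β') d = t * ∑ d, S (k, β) d * T (l', β') d := by
      rw [Finset.mul_sum]
      refine Finset.sum_congr rfl fun d _ => ?_
      rw [ht d]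
      ring
    rw [h4, h3, mul_zero]
  have h5 : ∑ c, P (l', β') c * Q (l', β') c = 0 := by
    rw [(h.blk hr β).2 (P (l', β')) (Q (l', β'))]
    exact Finset.sum_eq_zero (fun k _ => by rw [h1 k, mul_zero])
  have h6 := h.self (l', β')
  rw [h5, zero_mul] at h6
  exact zero_ne_one h6

/-- A row whose private entries in a block are those of one private row is parallel to it. -/
theorem Frame.row (h : Frame K r P Q S T) (hr : r < K) (u : Fin K → ℝ) (s : Fin r → ℝ)
    (l₀ : Fin K) (β₀ : Fin r)
    (hm : ∀ l, (∑ c, u c * Q (l, β₀) c) * (∑ d, s d * T (l, β₀) d) = if l = l₀ then 1 else 0) :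
    ∃ μ : ℝ, μ ≠ 0 ∧ ∀ c, P (l₀, β₀) c = μ * u c := by
  have h1 : ∀ c, u c * ∑ d, s d * T (l₀, β₀) d =
      P (l₀, β₀) c * ∑ d, S (l₀, β₀) d * T (l₀, β₀) d := by
    intro c
    calc u c * ∑ d, s d * T (l₀, β₀) d
        = ∑ d, (u c * s d) * T (l₀, β₀) d := by
          rw [Finset.mul_sum]
          refine Finset.sum_congr rfl fun d _ => ?_
          ring
      _ = ∑ d : Fin r, ∑ p : Fin K × Fin r, (((∑ c, u c * Q p c) * ∑ d, s d * T p d) *
            (P p c * S p d)) * T (l₀, β₀) d := by
          refine Finset.sum_congr rfl fun d' _ => ?_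
          rw [expand h.dual u s c d', Finset.sum_mul]
      _ = ∑ p : Fin K × Fin r, ((∑ c, u c * Q p c) * ∑ d, s d * T p d) * P p c *
            ∑ d, S p d * T (l₀, β₀) d := by
          rw [Finset.sum_comm]
          refine Finset.sum_congr rfl fun p _ => ?_
          have e : ∀ x : ℝ, ∑ d, x * (P p c * S p d) * T (l₀, β₀) d =
              x * P p c * ∑ d, S p d * T (l₀, β₀) d := fun x => by
            rw [Finset.mul_sum]
            exact Finset.sum_congr rfl fun d _ => by ring
          exact e _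
      _ = P (l₀, β₀) c * ∑ d, S (l₀, β₀) d * T (l₀, β₀) d := by
          rw [Finset.sum_eq_single (l₀, β₀)]
          · rw [hm l₀, if_pos rfl, one_mul]
          · rintro ⟨l, β⟩ _ hp
            by_cases hβ : β = β₀
            · subst hβ
              rw [hm l, if_neg (fun e => hp (by rw [e])), zero_mul, zero_mul]
            · rw [h.cross hr hβ, mul_zero]
          · intro hn
            exact absurd (Finset.mem_univ _) hn
  have hσ := (h.blk hr β₀).1 l₀ l₀
  have h2 : ∀ c, P (l₀, β₀) c = ((∑ d, s d * T (l₀, β₀) d) /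
      (∑ d, S (l₀, β₀) d * T (l₀, β₀) d)) * u c := by
    intro c
    have := h1 c
    field_simp
    linarith
  refine ⟨_, ?_, h2⟩
  intro h0
  apply (ne_zero_of_left (h.self (l₀, β₀))).1
  funext c
  rw [h2 c, h0, zero_mul]
  rfl

/-- A column whose private entries in a block are those of one private column is parallel to it. -/
theorem Frame.col (h : Frame K r P Q S T) (hr : r < K) (q : Fin K → ℝ) (t : Fin r → ℝ)
    (l₀ : Fin K) (β₀ : Fin r)
    (hm : ∀ l, (∑ c, P (l, β₀) c * q c) * (∑ d, S (l, β₀) d * t d) = if l = l₀ then 1 else 0) :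
    ∃ μ : ℝ, μ ≠ 0 ∧ ∀ c, Q (l₀, β₀) c = μ * q c := by
  have hdual : ∀ p p', (∑ c, Q p c * P p' c) * (∑ d, T p d * S p' d) =
      if p = p' then 1 else 0 := by
    intro p p'
    have h1 := h.dual p' p
    simp only [mul_comm (P p' _), mul_comm (S p' _)] at h1
    rw [h1]
    by_cases e : p = p'
    · rw [if_pos e, if_pos e.symm]
    · rw [if_neg e, if_neg (fun h => e h.symm)]
  have hm' : ∀ p, (∑ c, q c * P p c) * (∑ d, t d * S p d) =
      (∑ c, P p c * q c) * (∑ d, S p d * t d) := by
    intro p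
    simp only [mul_comm (P p _), mul_comm (S p _)]
  have h1 : ∀ c, q c * ∑ d, t d * S (l₀, β₀) d =
      Q (l₀, β₀) c * ∑ d, S (l₀, β₀) d * T (l₀, β₀) d := by
    intro c
    calc q c * ∑ d, t d * S (l₀, β₀) d
        = ∑ d, (q c * t d) * S (l₀, β₀) d := by
          rw [Finset.mul_sum]
          refine Finset.sum_congr rfl fun d _ => ?_
          ring
      _ = ∑ d : Fin r, ∑ p : Fin K × Fin r, (((∑ c, q c * P p c) * ∑ d, t d * S p d) *
            (Q p c * T p d)) * S (l₀, β₀) d := by
          refine Finset.sum_congr rfl fun d' _ => ?_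
          rw [expand hdual q t c d', Finset.sum_mul]
      _ = ∑ p : Fin K × Fin r, ((∑ c, q c * P p c) * ∑ d, t d * S p d) * Q p c *
            ∑ d, S (l₀, β₀) d * T p d := by
          rw [Finset.sum_comm]
          refine Finset.sum_congr rfl fun p _ => ?_
          have e : ∀ x : ℝ, ∑ d, x * (Q p c * T p d) * S (l₀, β₀) d =
              x * Q p c * ∑ d, S (l₀, β₀) d * T p d := fun x => by
            rw [Finset.mul_sum]
            exact Finset.sum_congr rfl fun d _ => by ring
          exact e _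
      _ = Q (l₀, β₀) c * ∑ d, S (l₀, β₀) d * T (l₀, β₀) d := by
          rw [Finset.sum_eq_single (l₀, β₀)]
          · rw [hm', hm l₀, if_pos rfl, one_mul]
          · rintro ⟨l, β⟩ _ hp
            by_cases hβ : β = β₀
            · subst hβ
              rw [hm', hm l, if_neg (fun e => hp (by rw [e])), zero_mul, zero_mul]
            · rw [h.cross hr (fun e => hβ e.symm), mul_zero]
          · intro hn
            exact absurd (Finset.mem_univ _) hn
  have hσ := (h.blk hr β₀).1 l₀ l₀
  have h2 : ∀ c, Q (l₀, β₀) c = ((∑ d, t d * S (l₀, β₀) d) /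
      (∑ d, S (l₀, β₀) d * T (l₀, β₀) d)) * q c := by
    intro c
    have := h1 c
    field_simp
    linarith
  refine ⟨_, ?_, h2⟩
  intro h0
  apply (ne_zero_of_left (h.self (l₀, β₀))).2.2
  funext c
  rw [h2 c, h0, zero_mul]
  rfl

end frame

/-- Rank from a factorization and an identity submatrix. -/
theorem rank_eq {m n k : ℕ} (A : Matrix (Fin m) (Fin k) ℝ) (B : Matrix (Fin k) (Fin n) ℝ)
    (f : Fin k → Fin m) (g : Fin k → Fin n) (h : (A * B).submatrix f g = 1) :
    (A * B).rank = k := by
  apply le_antisymm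
  · exact (Matrix.rank_mul_le_left A B).trans (Matrix.rank_le_width A)
  · have h1 := Matrix.rank_submatrix_le (A * B) f g
    rw [h, Matrix.rank_one, Fintype.card_fin] at h1
    exact h1

end Pool.Agent.X246.HDM
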