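import Pool.Agent.X246.CMI.Sound
import Pool.Agent.X246.HDM.Lin

/-!
# Hadamard decomposition: the reduction and its soundness
-/

set_option autoImplicit false

namespace Pool.Agent.X246.HDM

open Pool.Agent.NPC Finset Pool.Agent.X246.CMI

/-- Descriptions of rows. -/
abbrev RD : Type := ℕ × ℕ × ℕ × ℕ

/-- Descriptions of columns. -/
abbrev CD : Type := ℕ × ℕ × ℕ

/-- Zero constraints between the shared rows and the shared columns. -/
def Z (L : List D) (i j : ℕ) : Prop :=
  if i < L.length then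
    (if j < L.length then Orth (dget L i) (dget L j)
      else rsup (dget L i).1 (j - L.length) = false)
  else (if j < L.length then csup (dget L j).1 (i - L.length) = false else True)

instance (L : List D) (i j : ℕ) : Decidable (Z L i j) := by unfold Z; infer_instance

/-- The block of the pair `(i, j)` is used. -/
def Act (L : List D) (i j : ℕ) : Prop := i = j ∨ Z L i j

instance (L : List D) (i j : ℕ) : Decidable (Act L i j) := by unfold Act; infer_instance

/-- Number of shared rows. -/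
def nn (L : List D) : ℕ := L.length + 5

/-- The second rank: the number of blocks. -/
def rr (L : List D) : ℕ := nn L * nn L

/-- The first rank: the size of a block. -/
def kk (L : List D) : ℕ := rr L + 1

/-- The position of the column of a pair in its block. -/
def pos (i j : ℕ) : ℕ := if i = j then 0 else 1

/-- The entry of a row in the private column `(l, β)`. -/
def cR (L : List D) (ρ : RD) (l β : ℕ) : ℕ :=
  if ρ.1 = 0 then (if l = ρ.2.1 ∧ β = ρ.2.2.1 then 1 else 0)
  else if ρ.1 = 1 then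
    (if β = ρ.2.2.2 then (if l = ρ.2.1 then 1 else 0) + (if l = ρ.2.2.1 then 1 else 0) else 0)
  else if ρ.1 = 2 then (if l = ρ.2.1 + 5 then 1 else 0)
  else (if (β / nn L = ρ.2.1 ∧ Act L ρ.2.1 (β % nn L)) ∧ l = 0 then 1 else 0)

/-- The entry of the shared column `j` in the private row `(l, β)`. -/
def cC (L : List D) (j l β : ℕ) : ℕ :=
  if (β % nn L = j ∧ Act L (β / nn L) j) ∧ l = pos (β / nn L) j then 1 else 0

/-- The entries of the matrix. -/
def ent (L : List D) (ρ : RD) (γ : CD) : ℕ :=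
  if γ.1 = 0 then cR L ρ γ.2.1 γ.2.2
  else if ρ.1 = 0 then cC L γ.2.1 ρ.2.1 ρ.2.2.1
  else if ρ.1 = 1 then cC L γ.2.1 ρ.2.1 ρ.2.2.2 + cC L γ.2.1 ρ.2.2.1 ρ.2.2.2
  else if ρ.1 = 2 then 0
  else if ρ.2.1 = γ.2.1 then 1 else 0

/-- All rows. -/
def Rows (L : List D) : List RD :=
  ((List.range (kk L)).flatMap fun l => (List.range (rr L)).map fun β => ((0, l, β, 0) : RD)) ++
  (((List.range (kk L)).flatMap fun l => (List.range (kk L)).flatMap fun l' =>
    (List.range (rr L)).map fun β => ((1, l, l', β) : RD)) ++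
  (((List.range (kk L - 5)).map fun k => ((2, k, 0, 0) : RD)) ++
  ((List.range (nn L)).map fun i => ((3, i, 0, 0) : RD))))

/-- All columns. -/
def Cols (L : List D) : List CD :=
  ((List.range (kk L)).flatMap fun l => (List.range (rr L)).map fun β => ((0, l, β) : CD)) ++
  ((List.range (nn L)).map fun j => ((1, j, 0) : CD))

theorem mem_Rows {L : List D} {ρ : RD} : ρ ∈ Rows L ↔
    (∃ l < kk L, ∃ β < rr L, ρ = (0, l, β, 0)) ∨
    (∃ l < kk L, ∃ l' < kk L, ∃ β < rr L, ρ = (1, l, l', β)) ∨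
    (∃ k < kk L - 5, ρ = (2, k, 0, 0)) ∨ (∃ i < nn L, ρ = (3, i, 0, 0)) := by
  simp only [Rows, List.mem_append, List.mem_flatMap, List.mem_map, List.mem_range, eq_comm]

theorem mem_Cols {L : List D} {γ : CD} : γ ∈ Cols L ↔
    (∃ l < kk L, ∃ β < rr L, γ = (0, l, β)) ∨ (∃ j < nn L, γ = (1, j, 0)) := by
  simp only [Cols, List.mem_append, List.mem_flatMap, List.mem_map, List.mem_range, eq_comm]

theorem nn_pos (L : List D) : 5 ≤ nn L := by unfold nn; omega

theorem rr_ge (L : List D) : 25 ≤ rr L := by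
  have := nn_pos L
  unfold rr
  nlinarith

theorem idx_lt {L : List D} {i j : ℕ} (hi : i < nn L) (hj : j < nn L) : i * nn L + j < rr L := by
  unfold rr
  nlinarith

theorem idx_div {L : List D} {i j : ℕ} (hj : j < nn L) : (i * nn L + j) / nn L = i := by
  have := nn_pos L
  rw [Nat.add_comm, Nat.add_mul_div_right _ _ (by omega), Nat.div_eq_of_lt hj, zero_add]

theorem idx_mod {L : List D} {i j : ℕ} (hj : j < nn L) : (i * nn L + j) % nn L = j := by
  rw [Nat.add_comm, Nat.add_mul_mod_self_right, Nat.mod_eq_of_lt hj]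

/-- From five dimensions to a solution of the bilinear system. -/
theorem is_of_five (L : List D) (α β : ℕ → ℕ → ℝ) (G : ℕ → ℕ → ℝ)
    (hG : ∀ i < nn L, ∀ j < nn L, G i j = ∑ l ∈ range 5, α i l * β j l)
    (h1 : ∀ i < nn L, G i i ≠ 0)
    (h2 : ∀ i < nn L, ∀ j < nn L, i ≠ j → Act L i j → G i j = 0) :
    ∃ a b : ℕ → ℕ → ℝ, IS L a b := by
  obtain ⟨m, hm⟩ : ∃ m, m = L.length := ⟨_, rfl⟩
  have hn : nn L = m + 5 := by rw [hm]; rfl
  let A : Matrix (Fin 5) (Fin 5) ℝ := Matrix.of fun k l => α (m + k) l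
  let B : Matrix (Fin 5) (Fin 5) ℝ := Matrix.of fun l k => β (m + k) l / G (m + k) (m + k)
  have hsum : ∀ i < nn L, ∀ k : Fin 5, ∑ l : Fin 5, α i l * B l k =
      G i (m + k) / G (m + k) (m + k) := by
    intro i hi k
    rw [hG i hi (m + k) (by omega), ← Fin.sum_univ_eq_sum_range (fun l => α i l * β (m + k) l),
      Finset.sum_div]
    refine Finset.sum_congr rfl fun l _ => ?_
    simp only [B, Matrix.of_apply]
    ring
  have hAB : A * B = 1 := by
    ext k k'
    rw [Matrix.mul_apply, Matrix.one_apply]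
    have h3 := hsum (m + k) (by omega) k'
    change ∑ l : Fin 5, α (m + k) l * B l k' = _
    rw [h3]
    by_cases hk : k = k'
    · subst hk
      rw [if_pos rfl, div_self (h1 (m + k) (by omega))]
    · rw [if_neg hk, h2 (m + k) (by omega) (m + k') (by omega), zero_div]
      · intro h
        exact hk (Fin.ext (by omega))
      · right
        unfold Z
        rw [if_neg (by omega), if_neg (by omega)]
        trivial
  have hBA : B * A = 1 := mul_eq_one_comm.1 hAB
  have key : ∀ i < nn L, ∀ j < nn L, ∑ k ∈ range 5,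
      G i (m + k) / G (m + k) (m + k) * G (m + k) j = G i j := by
    intro i hi j hj
    have h3 : (fun l : Fin 5 => α i l) ⬝ᵥ (fun l : Fin 5 => β j l) =
        (Matrix.vecMul (fun l : Fin 5 => α i l) B) ⬝ᵥ (A.mulVec (fun l : Fin 5 => β j l)) := by
      rw [← Matrix.dotProduct_mulVec, Matrix.mulVec_mulVec, hBA, Matrix.one_mulVec]
    have h4 : (fun l : Fin 5 => α i l) ⬝ᵥ (fun l : Fin 5 => β j l) = G i j := by
      rw [hG i hi j hj, ← Fin.sum_univ_eq_sum_range (fun l => α i l * β j l)]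
      rfl
    rw [← h4, h3, ← Fin.sum_univ_eq_sum_range
      (fun k => G i (m + k) / G (m + k) (m + k) * G (m + k) j), dotProduct]
    refine Finset.sum_congr rfl fun k _ => ?_
    rw [← hsum i hi k, hG (m + k) (by omega) j hj,
      ← Fin.sum_univ_eq_sum_range (fun l => α (m + k) l * β j l)]
    rfl
  refine ⟨fun i k => G i (m + k) / G (m + k) (m + k) / G i i, fun j k => G (m + k) j,
    ⟨?_, ?_, ?_, ?_⟩⟩
  · intro i hi k hk hr
    have h3 : G i (m + k) = 0 := by
      apply h2 i (by omega) (m + k) (by omega) (by omega)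
      right
      unfold Z
      rw [if_pos hi, if_neg (by omega)]
      have : m + k - L.length = k := by omega
      rw [this]
      exact hr
    simp only [h3, zero_div]
  · intro i hi k hk hr
    apply h2 (m + k) (by omega) i (by omega) (by omega)
    right
    unfold Z
    rw [if_neg (by omega), if_pos hi]
    have : m + k - L.length = k := by omega
    rw [this]
    exact hr
  · intro i hi
    have h3 : ∀ k ∈ range 5, G i (m + k) / G (m + k) (m + k) / G i i * G (m + k) i =
        G i (m + k) / G (m + k) (m + k) * G (m + k) i / G i i := by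
      intro k _
      ring
    rw [Finset.sum_congr rfl h3, ← Finset.sum_div, key i (by omega) i (by omega),
      div_self (h1 i (by omega))]
  · intro i hi j hj ho
    have hij : i ≠ j := by
      rintro rfl
      exact not_orth_self _ ho
    have h3 : ∀ k ∈ range 5, G i (m + k) / G (m + k) (m + k) / G i i * G (m + k) j =
        G i (m + k) / G (m + k) (m + k) * G (m + k) j / G i i := by
      intro k _
      ring
    rw [Finset.sum_congr rfl h3, ← Finset.sum_div, key i (by omega) j (by omega),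
      h2 i (by omega) j (by omega) hij, zero_div]
    right
    unfold Z
    rw [if_pos hi, if_pos hj]
    exact ho

/-- Soundness of the reduction. -/
theorem is_of_tensors (L : List D) (P : RD → Fin (kk L) → ℝ) (S : RD → Fin (rr L) → ℝ)
    (Q : CD → Fin (kk L) → ℝ) (T : CD → Fin (rr L) → ℝ)
    (h : ∀ ρ ∈ Rows L, ∀ γ ∈ Cols L,
      (∑ c, P ρ c * Q γ c) * (∑ d, S ρ d * T γ d) = (ent L ρ γ : ℝ)) :
    ∃ a b : ℕ → ℕ → ℝ, IS L a b := by
  have hrk : rr L < kk L := Nat.lt_succ_self _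
  have hr25 := rr_ge L
  have hK5 : 5 < kk L := by omega
  have hdual : ∀ p q : Fin (kk L) × Fin (rr L),
      (∑ c, P (0, p.1, p.2, 0) c * Q (0, q.1, q.2) c) *
        (∑ d, S (0, p.1, p.2, 0) d * T (0, q.1, q.2) d) = if p = q then 1 else 0 := by
    intro p q
    rw [h _ (mem_Rows.2 (Or.inl ⟨p.1, p.1.2, p.2, p.2.2, rfl⟩)) _
      (mem_Cols.2 (Or.inl ⟨q.1, q.1.2, q.2, q.2.2, rfl⟩))]
    by_cases hpq : p = q
    · subst hpq
      simp [ent, cR]
    · rw [if_neg hpq]
      have : ¬ ((q.1 : ℕ) = p.1 ∧ (q.2 : ℕ) = p.2) := fun e =>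
        hpq (Prod.ext (Fin.ext e.1.symm) (Fin.ext e.2.symm))
      simp [ent, cR, this]
  have hF : Frame (kk L) (rr L) (fun p => P (0, p.1, p.2, 0)) (fun p => Q (0, p.1, p.2))
      (fun p => S (0, p.1, p.2, 0)) (fun p => T (0, p.1, p.2)) := by
    refine ⟨hdual, fun β l l' => ⟨P (1, l, l', β), S (1, l, l', β), fun c d => ?_⟩⟩
    rw [expand (P := fun p : Fin (kk L) × Fin (rr L) => P (0, p.1, p.2, 0))
      (Q := fun p => Q (0, p.1, p.2)) (S := fun p => S (0, p.1, p.2, 0))
      (T := fun p => T (0, p.1, p.2)) hdual (P (1, l, l', β)) (S (1, l, l', β)) c d]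
    have hc : ∀ p : Fin (kk L) × Fin (rr L),
        ((∑ c, P (1, l, l', β) c * Q (0, p.1, p.2) c) *
          ∑ d, S (1, l, l', β) d * T (0, p.1, p.2) d) =
          (if p = (l, β) then 1 else 0) + (if p = (l', β) then 1 else 0) := by
      intro p
      rw [h _ (mem_Rows.2 (Or.inr (Or.inl ⟨l, l.2, l', l'.2, β, β.2, rfl⟩))) _
        (mem_Cols.2 (Or.inl ⟨p.1, p.1.2, p.2, p.2.2, rfl⟩))]
      obtain ⟨x, y⟩ := p
      simp only [ent, cR, Prod.mk.injEq, Fin.ext_iff]
      by_cases h1 : (y : ℕ) = β <;> by_cases h2 : (x : ℕ) = l <;> by_cases h3 : (x : ℕ) = l' <;>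
        simp [h1, h2, h3]
    simp only [hc, add_mul, Finset.sum_add_distrib, ite_mul, one_mul, zero_mul,
      Finset.sum_ite_eq', Finset.mem_univ, if_true]
  -- shared rows
  have hrow : ∀ i (hi : i < nn L) j (hj : j < nn L), Act L i j → ∃ μ : ℝ, μ ≠ 0 ∧
      ∀ c, P (0, 0, i * nn L + j, 0) c = μ * P (3, i, 0, 0) c := by
    intro i hi j hj hij
    have := hF.row hrk (P (3, i, 0, 0)) (S (3, i, 0, 0)) ⟨0, by omega⟩
      ⟨i * nn L + j, idx_lt hi hj⟩ (fun l => by
        have e := h _ (mem_Rows.2 (Or.inr (Or.inr (Or.inr ⟨i, hi, rfl⟩)))) _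
          (mem_Cols.2 (Or.inl ⟨l, l.2, i * nn L + j, idx_lt hi hj, rfl⟩))
        simp only at e ⊢
        rw [e]
        simp only [ent, cR, idx_div hj, idx_mod hj, hij, Fin.ext_iff]
        by_cases hl : (l : ℕ) = 0 <;> simp [hl])
    exact this
  have hglue : ∀ k (hk : k < kk L - 5) (b : ℕ) (hb : b < rr L), ∃ μ : ℝ, μ ≠ 0 ∧
      ∀ c, P (0, k + 5, b, 0) c = μ * P (2, k, 0, 0) c := by
    intro k hk b hb
    have := hF.row hrk (P (2, k, 0, 0)) (S (2, k, 0, 0)) ⟨k + 5, by omega⟩
      ⟨b, hb⟩ (fun l => by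
        have e := h _ (mem_Rows.2 (Or.inr (Or.inr (Or.inl ⟨k, hk, rfl⟩)))) _
          (mem_Cols.2 (Or.inl ⟨l, l.2, b, hb, rfl⟩))
        simp only at e ⊢
        rw [e]
        simp only [ent, cR, Fin.ext_iff]
        by_cases hl : (l : ℕ) = k + 5 <;> simp [hl])
    exact this
  have hcol : ∀ i (hi : i < nn L) j (hj : j < nn L), Act L i j → ∃ μ : ℝ, μ ≠ 0 ∧
      ∀ c, Q (0, pos i j, i * nn L + j) c = μ * Q (1, j, 0) c := by
    intro i hi j hj hij
    have hp : pos i j < kk L := by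
      unfold pos
      split_ifs <;> omega
    have := hF.col hrk (Q (1, j, 0)) (T (1, j, 0)) ⟨pos i j, hp⟩
      ⟨i * nn L + j, idx_lt hi hj⟩ (fun l => by
        have e := h _ (mem_Rows.2 (Or.inl ⟨l, l.2, i * nn L + j, idx_lt hi hj, rfl⟩)) _
          (mem_Cols.2 (Or.inr ⟨j, hj, rfl⟩))
        simp only at e ⊢
        rw [e]
        simp only [ent, cC, idx_div hj, idx_mod hj, hij, Fin.ext_iff]
        by_cases hl : (l : ℕ) = pos i j <;> simp [hl])
    exact this
  -- products
  have hscal : ∀ (u u' v v' : Fin (kk L) → ℝ) (x y : ℝ), (∀ c, u' c = x * u c) →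
      (∀ c, v' c = y * v c) → ∑ c, u' c * v' c = x * y * ∑ c, u c * v c := by
    intro u u' v v' x y hu hv
    rw [Finset.mul_sum]
    refine Finset.sum_congr rfl fun c _ => ?_
    rw [hu, hv]
    ring
  have hdiag : ∀ i < nn L, ∑ c, P (3, i, 0, 0) c * Q (1, i, 0) c ≠ 0 := by
    intro i hi h0
    obtain ⟨x, hx, h1⟩ := hrow i hi i hi (Or.inl rfl)
    obtain ⟨y, hy, h2⟩ := hcol i hi i hi (Or.inl rfl)
    have h3 := hscal _ _ _ _ x y h1 h2
    rw [h0, mul_zero] at h3
    have h4 := hF.self (⟨0, by omega⟩, ⟨i * nn L + i, idx_lt hi hi⟩)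
    have hp : pos i i = 0 := if_pos rfl
    rw [hp] at h3
    simp only at h4
    rw [h3, zero_mul] at h4
    exact zero_ne_one h4
  have hzero : ∀ i < nn L, ∀ j < nn L, i ≠ j → Act L i j →
      ∑ c, P (3, i, 0, 0) c * Q (1, j, 0) c = 0 := by
    intro i hi j hj hne hij
    obtain ⟨x, hx, h1⟩ := hrow i hi j hj hij
    obtain ⟨y, hy, h2⟩ := hcol i hi j hj hij
    have h3 := hscal _ _ _ _ x y h1 h2
    have hp : pos i j = 1 := if_neg hne
    rw [hp] at h3
    have h4 := hF.orth hrk ⟨i * nn L + j, idx_lt hi hj⟩ (l := ⟨0, by omega⟩)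
      (l' := ⟨1, by omega⟩) (by simp)
    simp only at h4
    rw [h4] at h3
    exact (mul_eq_zero.1 h3.symm).resolve_left (mul_ne_zero hx hy)
  have hz : ∀ l, 5 ≤ l → l < kk L → ∀ j < nn L,
      ∑ c, P (0, l, 0, 0) c * Q (1, j, 0) c = 0 := by
    intro l hl5 hl j hj
    obtain ⟨k, rfl⟩ : ∃ k, l = k + 5 := ⟨l - 5, by omega⟩
    obtain ⟨x, hx, h1⟩ := hglue k (by omega) 0 (by omega)
    obtain ⟨x', hx', h1'⟩ := hglue k (by omega) (j * nn L + j) (idx_lt hj hj)
    obtain ⟨y, hy, h2⟩ := hcol j hj j hj (Or.inl rfl)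
    have hp : pos j j = 0 := if_pos rfl
    rw [hp] at h2
    have h3 := hscal _ _ _ _ x' y h1' h2
    have h4 := hF.orth hrk ⟨j * nn L + j, idx_lt hj hj⟩ (l := ⟨k + 5, by omega⟩)
      (l' := ⟨0, by omega⟩) (by simp)
    simp only at h4
    rw [h4] at h3
    have h5 := (mul_eq_zero.1 h3.symm).resolve_left (mul_ne_zero hx' hy)
    have h6 := hscal _ _ (Q (1, j, 0)) (Q (1, j, 0)) x 1 h1 (fun c => (one_mul _).symm)
    rw [h6, h5, mul_zero]
  -- five dimensions
  let α : ℕ → ℕ → ℝ := fun i l => (∑ c, P (3, i, 0, 0) c * Q (0, l, 0) c) *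
    (∑ d, S (0, l, 0, 0) d * T (0, l, 0) d)
  let βv : ℕ → ℕ → ℝ := fun j l => ∑ c, P (0, l, 0, 0) c * Q (1, j, 0) c
  refine is_of_five L α βv (fun i j => ∑ c, P (3, i, 0, 0) c * Q (1, j, 0) c) ?_ hdiag hzero
  intro i _ j hj
  have h1 := (hF.blk hrk ⟨0, by omega⟩).2 (P (3, i, 0, 0)) (Q (1, j, 0))
  simp only at h1 ⊢
  rw [h1]
  have h2 := Fin.sum_univ_eq_sum_range (fun l => α i l * βv j l) (kk L)
  refine Eq.trans h2 ?_
  symm
  apply Finset.sum_subset
  · intro l hl
    rw [Finset.mem_range] at hl ⊢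
    omega
  · intro l hl hl'
    rw [Finset.mem_range] at hl hl'
    have : βv j l = 0 := hz l (by omega) hl j hj
    rw [this, mul_zero]

end Pool.Agent.X246.HDM
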