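import Pool.Agent.X246.CMI.Main
import Pool.Agent.X246.HDM.Red

/-!
# Hadamard decomposition: completeness of the reduction
-/

set_option autoImplicit false

namespace Pool.Agent.X246.HDM

open Pool.Agent.NPC Finset Pool.Agent.X246.CMI

section comp

variable (x : ℕ → ℝ) (L : List D)

/-- The shared row vectors. -/
noncomputable def av (i k : ℕ) : ℝ :=
  if i < L.length then (rowL x (dget L i)).getD k 0 else if k = i - L.length then 1 else 0

/-- The shared column vectors. -/
noncomputable def bv (j k : ℕ) : ℝ :=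
  if j < L.length then (colL x (dget L j)).getD k 0 else if k = j - L.length then 1 else 0

/-- Products of the shared vectors. -/
noncomputable def dt (i j : ℕ) : ℝ := ∑ k ∈ range 5, av x L i k * bv x L j k

variable {x L}

theorem dt_self (hV : ∀ i < L.length, Valid x (dget L i)) {i : ℕ} (hi : i < nn L) :
    dt x L i i = 1 := by
  unfold nn at hi
  by_cases h : i < L.length
  · have h1 := dot_self x _ (hV i h).1
    unfold dot at h1
    unfold dt av bv
    simp only [if_pos h]
    exact h1
  · unfold dt av bv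
    simp only [if_neg h]
    rw [Finset.sum_eq_single (i - L.length)]
    · simp
    · intro k _ hk
      simp [hk]
    · intro hn
      exfalso
      apply hn
      rw [Finset.mem_range]
      omega

theorem dt_zero (hV : ∀ i < L.length, Valid x (dget L i)) {i j : ℕ} (hi : i < nn L)
    (hj : j < nn L) (hne : i ≠ j) (h : Act L i j) : dt x L i j = 0 := by
  have hZ : Z L i j := h.resolve_left hne
  unfold nn at hi hj
  unfold Z at hZ
  by_cases h1 : i < L.length
  · by_cases h2 : j < L.length
    · rw [if_pos h1, if_pos h2] at hZ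
      have h3 := dot_orth x _ _ (hV i h1) (hV j h2) hZ
      unfold dot at h3
      unfold dt av bv
      simp only [if_pos h1, if_pos h2]
      exact h3
    · rw [if_pos h1, if_neg h2] at hZ
      unfold dt av bv
      simp only [if_pos h1, if_neg h2]
      refine Finset.sum_eq_zero fun k _ => ?_
      by_cases hk : k = j - L.length
      · rw [hk, rowL_zero x _ (hV i h1).1 _ (by omega) hZ, zero_mul]
      · rw [if_neg hk, mul_zero]
  · by_cases h2 : j < L.length
    · rw [if_neg h1, if_pos h2] at hZ
      unfold dt av bv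
      simp only [if_neg h1, if_pos h2]
      refine Finset.sum_eq_zero fun k _ => ?_
      by_cases hk : k = i - L.length
      · rw [hk, colL_zero x _ (hV j h2).1 _ (by omega) hZ, mul_zero]
      · rw [if_neg hk, zero_mul]
    · unfold dt av bv
      simp only [if_neg h1, if_neg h2]
      refine Finset.sum_eq_zero fun k _ => ?_
      by_cases hk : k = i - L.length
      · rw [if_neg (fun e : k = j - L.length => hne (by omega)), mul_zero]
      · rw [if_neg hk, zero_mul]

theorem exists_frame (hV : ∀ i < L.length, Valid x (dget L i)) (β : ℕ) :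
    ∃ A B : Matrix (Fin 5) (Fin 5) ℝ, A * B = 1 ∧
      (β / nn L < nn L → β % nn L < nn L → Act L (β / nn L) (β % nn L) →
        (∀ c : Fin 5, A 0 c = av x L (β / nn L) c) ∧
        (∀ c l : Fin 5, (l : ℕ) = pos (β / nn L) (β % nn L) →
          B c l = bv x L (β % nn L) c)) := by
  obtain ⟨i, hi⟩ : ∃ i, i = β / nn L := ⟨_, rfl⟩
  obtain ⟨j, hj⟩ : ∃ j, j = β % nn L := ⟨_, rfl⟩
  rw [← hi, ← hj]
  by_cases h : i < nn L ∧ j < nn L ∧ Act L i j
  · obtain ⟨h1, h2, h3⟩ := h
    have hsum : ∀ i j, ∑ c : Fin 5, av x L i c * bv x L j c = dt x L i j := fun i j =>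
      Fin.sum_univ_eq_sum_range (fun c => av x L i c * bv x L j c) 5
    by_cases hij : i = j
    · subst hij
      let A : Matrix (Fin 1) (Fin 5) ℝ := Matrix.of fun _ c => av x L i c
      let B : Matrix (Fin 5) (Fin 1) ℝ := Matrix.of fun c _ => bv x L i c
      have hAB : A * B = 1 := by
        ext a b
        rw [Subsingleton.elim b a, Matrix.mul_apply, Matrix.one_apply_eq]
        exact (hsum i i).trans (dt_self hV h1)
      obtain ⟨A', B', hAB', hA', hB'⟩ := complete A B hAB
      refine ⟨A', B', hAB', fun _ _ _ => ⟨fun c => hA' 0 (by norm_num) c, fun c l hl => ?_⟩⟩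
      have hl0 : (l : ℕ) = 0 := by rw [hl]; exact if_pos rfl
      exact hB' l (by omega) c
    · let A : Matrix (Fin 2) (Fin 5) ℝ := Matrix.of fun a c =>
        if a = 0 then av x L i c else av x L j c - dt x L j i * av x L i c
      let B : Matrix (Fin 5) (Fin 2) ℝ := Matrix.of fun c b =>
        if b = 0 then bv x L i c else bv x L j c
      have hAB : A * B = 1 := by
        have e1 := dt_self hV h1
        have e2 := dt_self hV h2
        have e3 := dt_zero hV h1 h2 hij h3
        ext a b
        rw [Matrix.mul_apply]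
        fin_cases a <;> fin_cases b
        · simp only [A, B, Matrix.of_apply]
          simpa [hsum] using e1
        · simp only [A, B, Matrix.of_apply]
          simpa [hsum] using e3
        · simp only [A, B, Matrix.of_apply]
          simp [sub_mul, mul_assoc, ← Finset.mul_sum, hsum, e1]
        · simp only [A, B, Matrix.of_apply]
          simp [sub_mul, mul_assoc, ← Finset.mul_sum, hsum, e2, e3]
      obtain ⟨A', B', hAB', hA', hB'⟩ := complete A B hAB
      refine ⟨A', B', hAB', fun _ _ _ => ⟨fun c => ?_, fun c l hl => ?_⟩⟩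
      · rw [hA' 0 (by norm_num) c]
        simp [A]
      · have hl1 : (l : ℕ) = 1 := by rw [hl]; exact if_neg hij
        rw [hB' l (by omega) c]
        have : (⟨(l : ℕ), by omega⟩ : Fin 2) = 1 := Fin.ext hl1
        rw [this]
        simp [B]
  · refine ⟨1, 1, one_mul 1, fun h1 h2 h3 => absurd ⟨h1, h2, h3⟩ h⟩

end comp

section ext

variable (FA FB : ℕ → Matrix (Fin 5) (Fin 5) ℝ)

/-- Row vectors of the frames. -/
noncomputable def uu (β l c : ℕ) : ℝ :=
  if h : l < 5 ∧ c < 5 then FA β ⟨l, h.1⟩ ⟨c, h.2⟩ else if c = l then 1 else 0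

/-- Column vectors of the frames. -/
noncomputable def vv (β l c : ℕ) : ℝ :=
  if h : l < 5 ∧ c < 5 then FB β ⟨c, h.2⟩ ⟨l, h.1⟩ else if c = l then 1 else 0

theorem sum_uv {FA FB : ℕ → Matrix (Fin 5) (Fin 5) ℝ} (β : ℕ) (h : FA β * FB β = 1) {K l l' : ℕ}
    (hK : 5 ≤ K) (hl : l < K) (hl' : l' < K) :
    ∑ c ∈ range K, uu FA β l c * vv FB β l' c = if l = l' then 1 else 0 := by
  obtain ⟨p, rfl⟩ : ∃ p, K = 5 + p := ⟨K - 5, by omega⟩
  rw [Finset.sum_range_add]
  by_cases h1 : l < 5
  · have e2 : ∑ c ∈ range p, uu FA β l (5 + c) * vv FB β l' (5 + c) = 0 := by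
      refine Finset.sum_eq_zero fun c _ => ?_
      have : uu FA β l (5 + c) = 0 := by
        unfold uu
        rw [dif_neg (by omega), if_neg (by omega)]
      rw [this, zero_mul]
    rw [e2, add_zero]
    by_cases h2 : l' < 5
    · rw [← Fin.sum_univ_eq_sum_range (fun c => uu FA β l c * vv FB β l' c)]
      have h3 := congrFun (congrFun h ⟨l, h1⟩) ⟨l', h2⟩
      rw [Matrix.mul_apply, Matrix.one_apply] at h3
      simp only [Fin.mk.injEq] at h3
      rw [← h3]
      refine Finset.sum_congr rfl fun c _ => ?_
      unfold uu vv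
      rw [dif_pos ⟨h1, c.2⟩, dif_pos ⟨h2, c.2⟩]
    · rw [if_neg (by omega)]
      refine Finset.sum_eq_zero fun c hc => ?_
      rw [Finset.mem_range] at hc
      have : vv FB β l' c = 0 := by
        unfold vv
        rw [dif_neg (by omega), if_neg (by omega)]
      rw [this, mul_zero]
  · have e1 : ∑ c ∈ range 5, uu FA β l c * vv FB β l' c = 0 := by
      refine Finset.sum_eq_zero fun c hc => ?_
      rw [Finset.mem_range] at hc
      have : uu FA β l c = 0 := by
        unfold uu
        rw [dif_neg (by omega), if_neg (by omega)]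
      rw [this, zero_mul]
    have e3 : ∀ c, uu FA β l (5 + c) * vv FB β l' (5 + c) =
        if c = l - 5 then (if l = l' then 1 else 0) else 0 := by
      intro c
      unfold uu vv
      rw [dif_neg (by omega), dif_neg (by omega)]
      by_cases h2 : c = l - 5
      · rw [if_pos (by omega : 5 + c = l), if_pos h2, one_mul]
        by_cases h3 : l = l'
        · rw [if_pos (by omega), if_pos h3]
        · rw [if_neg (by omega), if_neg h3]
      · rw [if_neg (by omega : ¬ 5 + c = l), if_neg h2, zero_mul]
    rw [e1, zero_add, Finset.sum_congr rfl (fun c _ => e3 c), Finset.sum_ite_eq',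
      if_pos (by rw [Finset.mem_range]; omega)]

end ext

section vectors

variable (x : ℕ → ℝ) (L : List D) (FA FB : ℕ → Matrix (Fin 5) (Fin 5) ℝ)

/-- First factors of the rows. -/
noncomputable def PP (ρ : RD) (c : ℕ) : ℝ :=
  if ρ.1 = 0 then uu FA ρ.2.2.1 ρ.2.1 c
  else if ρ.1 = 1 then uu FA ρ.2.2.2 ρ.2.1 c + uu FA ρ.2.2.2 ρ.2.2.1 c
  else if ρ.1 = 2 then (if c = ρ.2.1 + 5 then 1 else 0)
  else (if c < 5 then av x L ρ.2.1 c else 0)

/-- Second factors of the rows. -/
noncomputable def SS (ρ : RD) (d : ℕ) : ℝ :=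
  if ρ.1 = 0 then (if d = ρ.2.2.1 then 1 else 0)
  else if ρ.1 = 1 then (if d = ρ.2.2.2 then 1 else 0)
  else if ρ.1 = 2 then 1
  else (if d / nn L = ρ.2.1 ∧ Act L ρ.2.1 (d % nn L) then 1 else 0)

/-- First factors of the columns. -/
noncomputable def QQ (γ : CD) (c : ℕ) : ℝ :=
  if γ.1 = 0 then vv FB γ.2.2 γ.2.1 c else (if c < 5 then bv x L γ.2.1 c else 0)

/-- Second factors of the columns. -/
noncomputable def TT (γ : CD) (d : ℕ) : ℝ :=
  if γ.1 = 0 then (if d = γ.2.2 then 1 else 0)
  else (if d % nn L = γ.2.1 ∧ Act L (d / nn L) γ.2.1 then 1 else 0)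

variable {x L FA FB}

theorem sum_delta (f : ℕ → ℝ) {n β : ℕ} (hβ : β < n) :
    ∑ d ∈ range n, (if d = β then 1 else 0) * f d = f β := by
  simp [hβ]

theorem products (hV : ∀ i < L.length, Valid x (dget L i))
    (hF : ∀ β, FA β * FB β = 1)
    (hF' : ∀ β, β / nn L < nn L → β % nn L < nn L → Act L (β / nn L) (β % nn L) →
        (∀ c : Fin 5, FA β 0 c = av x L (β / nn L) c) ∧
        (∀ c l : Fin 5, (l : ℕ) = pos (β / nn L) (β % nn L) →
          FB β c l = bv x L (β % nn L) c)) {ρ : RD} (hρ : ρ ∈ Rows L) {γ : CD}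
    (hγ : γ ∈ Cols L) :
    (∑ c ∈ range (kk L), PP x L FA ρ c * QQ x L FB γ c) *
      (∑ d ∈ range (rr L), SS L ρ d * TT L γ d) = (ent L ρ γ : ℝ) := by
  have hn := nn_pos L
  have hr25 := rr_ge L
  have hkr : kk L = rr L + 1 := rfl
  have hdiv : ∀ β < rr L, β / nn L < nn L := fun β hβ => by
    rw [Nat.div_lt_iff_lt_mul (by omega)]
    exact hβ
  have hmod : ∀ β, β % nn L < nn L := fun β => Nat.mod_lt _ (by omega)
  have huv : ∀ β, ∀ l < kk L, ∀ l' < kk L,
      ∑ c ∈ range (kk L), uu FA β l c * vv FB β l' c = if l = l' then 1 else 0 :=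
    fun β l hl l' hl' => sum_uv β (hF β) (by omega) hl hl'
  have hu0 : ∀ β < rr L, Act L (β / nn L) (β % nn L) → ∀ c,
      (if c < 5 then av x L (β / nn L) c else 0) = uu FA β 0 c := by
    intro β hβ ha c
    unfold uu
    by_cases hc : c < 5
    · rw [if_pos hc, dif_pos ⟨by norm_num, hc⟩]
      exact ((hF' β (hdiv β hβ) (hmod β) ha).1 ⟨c, hc⟩).symm
    · rw [if_neg hc, dif_neg (by omega), if_neg (by omega)]
  have hpos : ∀ i j, pos i j < 5 := fun i j => by unfold pos; split_ifs <;> norm_num
  have hv0 : ∀ β < rr L, Act L (β / nn L) (β % nn L) → ∀ c,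
      (if c < 5 then bv x L (β % nn L) c else 0) =
        vv FB β (pos (β / nn L) (β % nn L)) c := by
    intro β hβ ha c
    have hp := hpos (β / nn L) (β % nn L)
    unfold vv
    by_cases hc : c < 5
    · rw [if_pos hc, dif_pos ⟨hp, hc⟩]
      exact ((hF' β (hdiv β hβ) (hmod β) ha).2 ⟨c, hc⟩ ⟨_, hp⟩ rfl).symm
    · rw [if_neg hc, dif_neg (by omega), if_neg (by omega)]
  rw [mem_Rows] at hρ
  rw [mem_Cols] at hγ
  -- shared columns against the rows of a block
  have hsc : ∀ l < kk L, ∀ β < rr L, ∀ j < nn L,
      (∑ c ∈ range (kk L), uu FA β l c * (if c < 5 then bv x L j c else 0)) *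
        (if β % nn L = j ∧ Act L (β / nn L) j then 1 else 0) = (cC L j l β : ℝ) := by
    intro l hl β hβ j hj
    unfold cC
    by_cases h : β % nn L = j ∧ Act L (β / nn L) j
    · obtain ⟨rfl, h2⟩ := h
      rw [if_pos ⟨rfl, h2⟩, mul_one]
      simp only [hv0 β hβ h2]
      have hp := hpos (β / nn L) (β % nn L)
      rw [huv β l hl _ (by omega)]
      simp [h2]
    · rw [if_neg h, mul_zero]
      simp [h]
  rcases hγ with ⟨l', hl', β', hβ', rfl⟩ | ⟨j, hj, rfl⟩
  · rcases hρ with ⟨l, hl, β, hβ, rfl⟩ | ⟨l, hl, l₂, hl₂, β, hβ, rfl⟩ | ⟨k, hk, rfl⟩ |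
      ⟨i, hi, rfl⟩
    · simp only [PP, QQ, SS, TT, ent, cR, if_true]
      rw [sum_delta _ hβ]
      by_cases hb : β = β'
      · subst hb
        rw [huv β l hl l' hl', if_pos rfl, mul_one]
        by_cases h : l = l'
        · simp [h]
        · have h' : ¬ l' = l := fun e => h e.symm
          simp [h, h']
      · have hb' : ¬ β' = β := fun e => hb e.symm
        rw [if_neg hb, mul_zero]
        simp [hb']
    · simp only [PP, QQ, SS, TT, ent, cR, if_true, one_ne_zero, if_false]
      rw [sum_delta _ hβ]
      by_cases hb : β = β'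
      · subst hb
        simp only [add_mul, Finset.sum_add_distrib]
        rw [huv β l hl l' hl', huv β l₂ hl₂ l' hl']
        simp only [eq_comm (a := l), eq_comm (a := l₂), if_true, mul_one]
        push_cast
        rfl
      · rw [if_neg hb, mul_zero, if_neg (fun e : β' = β => hb e.symm)]
        simp
    · simp only [PP, QQ, SS, TT, ent, cR, if_true, one_ne_zero, if_false, OfNat.ofNat_ne_zero,
        OfNat.ofNat_ne_one]
      rw [sum_delta _ (by omega : k + 5 < kk L)]
      have h1 : ∑ d ∈ range (rr L), (1 : ℝ) * (if d = β' then 1 else 0) = 1 := by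
        simp [hβ']
      rw [h1, mul_one]
      unfold vv
      rw [dif_neg (by omega)]
      simp only [eq_comm (a := l')]
      push_cast
      rfl
    · have e3 : (3 : ℕ) ≠ 2 := by norm_num
      simp only [PP, QQ, SS, TT, ent, cR, if_true, one_ne_zero, if_false, OfNat.ofNat_ne_zero,
        OfNat.ofNat_ne_one, e3]
      have h1 : ∑ d ∈ range (rr L), (if d / nn L = i ∧ Act L i (d % nn L) then (1 : ℝ) else 0) *
          (if d = β' then 1 else 0) =
          if β' / nn L = i ∧ Act L i (β' % nn L) then 1 else 0 := by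
        simp [hβ']
      rw [h1]
      by_cases h : β' / nn L = i ∧ Act L i (β' % nn L)
      · obtain ⟨rfl, h2⟩ := h
        simp only [hu0 β' hβ' h2]
        rw [huv β' 0 (by omega) l' hl']
        simp [h2, eq_comm (a := (0 : ℕ))]
      · rw [if_neg h, mul_zero]
        simp [h]
  · rcases hρ with ⟨l, hl, β, hβ, rfl⟩ | ⟨l, hl, l₂, hl₂, β, hβ, rfl⟩ | ⟨k, hk, rfl⟩ |
      ⟨i, hi, rfl⟩
    · simp only [PP, QQ, SS, TT, ent, cR, if_true, one_ne_zero, if_false]
      rw [sum_delta _ hβ]
      exact hsc l hl β hβ j hj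
    · simp only [PP, QQ, SS, TT, ent, cR, if_true, one_ne_zero, if_false]
      rw [sum_delta _ hβ]
      simp only [add_mul, Finset.sum_add_distrib]
      rw [hsc l hl β hβ j hj, hsc l₂ hl₂ β hβ j hj]
      push_cast
      rfl
    · simp only [PP, QQ, SS, TT, ent, cR, if_true, one_ne_zero, if_false, OfNat.ofNat_ne_zero,
        OfNat.ofNat_ne_one]
      rw [sum_delta _ (by omega : k + 5 < kk L), if_neg (by omega)]
      simp
    · have e3 : (3 : ℕ) ≠ 2 := by norm_num
      simp only [PP, QQ, SS, TT, ent, cR, if_true, one_ne_zero, if_false, OfNat.ofNat_ne_zero,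
        OfNat.ofNat_ne_one, e3]
      have h1 : ∑ c ∈ range (kk L), (if c < 5 then av x L i c else 0) *
          (if c < 5 then bv x L j c else 0) = dt x L i j := by
        unfold dt
        have e5 : ∑ c ∈ range 5, av x L i c * bv x L j c = ∑ c ∈ range 5,
            (if c < 5 then av x L i c else 0) * (if c < 5 then bv x L j c else 0) := by
          refine Finset.sum_congr rfl fun c hc => ?_
          rw [Finset.mem_range] at hc
          rw [if_pos hc, if_pos hc]
        rw [e5]
        symm
        apply Finset.sum_subset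
        · intro c hc
          rw [Finset.mem_range] at hc ⊢
          omega
        · intro c _ hc
          rw [Finset.mem_range] at hc
          rw [if_neg hc, zero_mul]
      have h2 : ∑ d ∈ range (rr L), (if d / nn L = i ∧ Act L i (d % nn L) then (1 : ℝ) else 0) *
          (if d % nn L = j ∧ Act L (d / nn L) j then 1 else 0) =
          if Act L i j then 1 else 0 := by
        rw [Finset.sum_eq_single (i * nn L + j)]
        · rw [idx_div hj, idx_mod hj]
          by_cases h : Act L i j <;> simp [h]
        · intro d _ hd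
          by_cases h3 : d / nn L = i
          · by_cases h4 : d % nn L = j
            · exfalso
              apply hd
              rw [← h3, ← h4, Nat.mul_comm]
              exact (Nat.div_add_mod d (nn L)).symm
            · simp [h4]
          · simp [h3]
        · intro hn
          exact absurd (Finset.mem_range.2 (idx_lt hi hj)) hn
      rw [h1, h2]
      by_cases hij : i = j
      · subst hij
        have ha : Act L i i := Or.inl rfl
        rw [dt_self hV hi, if_pos ha]
        simp
      · rw [if_neg hij]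
        by_cases h : Act L i j
        · rw [dt_zero hV hi hj hij h]
          simp
        · rw [if_neg h]
          simp

end vectors

end Pool.Agent.X246.HDM
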