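import Pool.Agent.X246.HDM.Comp

/-!
# Hadamard decomposition: correctness of the reduction
-/

set_option autoImplicit false

namespace Pool.Agent.X246.HDM

open Pool.Agent.NPC Finset Pool.Agent.X246.CMI

/-- `A` is the table of a matrix with `m` rows and `n` columns. -/
def IsTable (m n : ℕ) (A : List (List ℚ)) : Prop := A.length = m ∧ ∀ r ∈ A, r.length = n

/-- The Hadamard decomposition problem: given (the table of) a rational matrix and `k₁`, `k₂`, is
the matrix the entrywise product of a real matrix of rank `k₁` and a real matrix of rank `k₂`? -/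
def HDec (I : List (List ℚ) × ℕ × ℕ) : Prop :=
  ∃ m n, IsTable m n I.1 ∧ ∃ M₁ M₂ : Matrix (Fin m) (Fin n) ℝ,
    M₁.rank = I.2.1 ∧ M₂.rank = I.2.2 ∧
      ∀ (i : Fin m) (j : Fin n), (((I.1.getD i []).getD j 0 : ℚ) : ℝ) = M₁ i j * M₂ i j

/-- The entries as rational numbers. -/
def qent (t : ℕ) : ℚ := if t = 0 then 0 else if t = 1 then 1 else 2

theorem qent_eq {t : ℕ} (h : t ≤ 2) : qent t = (t : ℚ) := by
  interval_cases t <;> simp [qent]

theorem ent_le (L : List D) (ρ : RD) (γ : CD) : ent L ρ γ ≤ 2 := by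
  unfold ent cR cC
  split_ifs <;> omega

/-- The matrix of the reduction. -/
def table (L : List D) : List (List ℚ) :=
  (Rows L).map fun ρ => (Cols L).map fun γ => qent (ent L ρ γ)

/-- The reduction. -/
def red (S : List ER.Con) : List (List ℚ) × ℕ × ℕ :=
  (table (descs S), kk (descs S), rr (descs S))

theorem table_getD (L : List D) {i j : ℕ} (hi : i < (Rows L).length) (hj : j < (Cols L).length) :
    (((table L).getD i []).getD j 0 : ℚ) = ((ent L ((Rows L)[i]) ((Cols L)[j]) : ℕ) : ℚ) := by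
  rw [← qent_eq (ent_le L _ _)]
  simp [table, List.getD, hi, hj]

theorem isTable_table (L : List D) : IsTable (Rows L).length (Cols L).length (table L) := by
  refine ⟨by simp [table], fun r h => ?_⟩
  unfold table at h
  rw [List.mem_map] at h
  obtain ⟨i, _, rfl⟩ := h
  simp

/-- Completeness. -/
theorem comp {S : List ER.Con} (h : ER.Sat S) : HDec (red S) := by
  obtain ⟨x, hx⟩ := h
  obtain ⟨L, hL⟩ : ∃ L, L = descs S := ⟨_, rfl⟩
  have hvalid : ∀ d ∈ L, Valid x d := by rw [hL]; exact valid_descs hx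
  unfold red
  rw [← hL]
  have hV : ∀ i < L.length, Valid x (dget L i) := by
    intro i hi
    apply hvalid
    rw [dget, List.getD_eq_getElem _ _ hi]
    exact List.getElem_mem hi
  choose FA FB hF hF' using exists_frame hV
  have hr25 := rr_ge L
  have hkr : kk L = rr L + 1 := rfl
  have hprod := fun {ρ : RD} (hρ : ρ ∈ Rows L) {γ : CD} (hγ : γ ∈ Cols L) =>
    products hV hF hF' hρ hγ
  -- positions of the private rows and columns
  have hR : ∀ l < kk L, ∀ β < rr L, ∃ i : Fin (Rows L).length,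
      (Rows L)[i] = ((0, l, β, 0) : RD) := by
    intro l hl β hβ
    obtain ⟨i, hi, h⟩ := List.mem_iff_getElem.1 (mem_Rows.2 (Or.inl ⟨l, hl, β, hβ, rfl⟩))
    exact ⟨⟨i, hi⟩, h⟩
  have hC : ∀ l < kk L, ∀ β < rr L, ∃ i : Fin (Cols L).length,
      (Cols L)[i] = ((0, l, β) : CD) := by
    intro l hl β hβ
    obtain ⟨i, hi, h⟩ := List.mem_iff_getElem.1 (mem_Cols.2 (Or.inl ⟨l, hl, β, hβ, rfl⟩))
    exact ⟨⟨i, hi⟩, h⟩
  let A₁ : Matrix (Fin (Rows L).length) (Fin (kk L)) ℝ := Matrix.of fun i c =>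
    PP x L FA ((Rows L)[i]) c
  let B₁ : Matrix (Fin (kk L)) (Fin (Cols L).length) ℝ := Matrix.of fun c j =>
    QQ x L FB ((Cols L)[j]) c
  let A₂ : Matrix (Fin (Rows L).length) (Fin (rr L)) ℝ := Matrix.of fun i d =>
    SS L ((Rows L)[i]) d
  let B₂ : Matrix (Fin (rr L)) (Fin (Cols L).length) ℝ := Matrix.of fun d j =>
    TT L ((Cols L)[j]) d
  have hm1 : ∀ i j, (A₁ * B₁) i j =
      ∑ c ∈ range (kk L), PP x L FA ((Rows L)[i]) c * QQ x L FB ((Cols L)[j]) c := by
    intro i j
    rw [Matrix.mul_apply]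
    exact Fin.sum_univ_eq_sum_range
      (fun c => PP x L FA ((Rows L)[i]) c * QQ x L FB ((Cols L)[j]) c) (kk L)
  have hm2 : ∀ i j, (A₂ * B₂) i j =
      ∑ d ∈ range (rr L), SS L ((Rows L)[i]) d * TT L ((Cols L)[j]) d := by
    intro i j
    rw [Matrix.mul_apply]
    exact Fin.sum_univ_eq_sum_range
      (fun d => SS L ((Rows L)[i]) d * TT L ((Cols L)[j]) d) (rr L)
  refine ⟨_, _, isTable_table L, A₁ * B₁, A₂ * B₂, ?_, ?_, ?_⟩
  · choose f hf using fun l : Fin (kk L) => hR l l.2 0 (by omega)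
    choose g hg using fun l : Fin (kk L) => hC l l.2 0 (by omega)
    refine rank_eq A₁ B₁ f g ?_
    ext l l'
    rw [Matrix.submatrix_apply, hm1, hf l, hg l', Matrix.one_apply]
    have h1 := sum_uv (FA := FA) (FB := FB) 0 (hF 0) (by omega) l.2 l'.2
    simp only [PP, QQ, if_true]
    rw [h1]
    simp only [Fin.ext_iff]
  · choose f hf using fun β : Fin (rr L) => hR 0 (by omega) β β.2
    choose g hg using fun β : Fin (rr L) => hC 0 (by omega) β β.2
    refine rank_eq A₂ B₂ f g ?_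
    ext β β'
    rw [Matrix.submatrix_apply, hm2, hf β, hg β', Matrix.one_apply]
    simp only [SS, TT, if_true]
    rw [sum_delta _ β.2]
    simp only [Fin.ext_iff]
  · intro i j
    have h7 := hprod (List.getElem_mem i.2) (List.getElem_mem j.2)
    rw [table_getD L i.2 j.2, hm1, hm2]
    refine Eq.trans ?_ h7.symm
    simp

/-- Correctness of the reduction. -/
theorem sat_iff (S : List ER.Con) : ER.Sat S ↔ HDec (red S) := by
  constructor
  · exact comp
  · rintro ⟨m, n, ⟨hm, hn⟩, M₁, M₂, h1, h2, h3⟩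
    obtain ⟨L, hL⟩ : ∃ L, L = descs S := ⟨_, rfl⟩
    unfold red at hm hn h1 h2 h3
    rw [← hL] at hm hn h1 h2 h3
    simp only at hm hn h1 h2 h3
    have hr25 := rr_ge L
    have hkr : kk L = rr L + 1 := rfl
    have hm' : (Rows L).length = m := by rw [← hm]; simp [table]
    have hn' : (Cols L).length = n := by
      have h0 : ((0, 0, 0, 0) : RD) ∈ Rows L :=
        mem_Rows.2 (Or.inl ⟨0, by omega, 0, by omega, rfl⟩)
      have h4 := hn _ (List.mem_map.2 ⟨_, h0, rfl⟩)
      simpa using h4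
    subst hm' hn'
    obtain ⟨A₁, B₁, e1⟩ := rank_factor M₁ h1
    obtain ⟨A₂, B₂, e2⟩ := rank_factor M₂ h2
    have hR : ∀ ρ ∈ Rows L, ∃ i : Fin (Rows L).length, (Rows L)[i] = ρ := by
      intro ρ hρ
      obtain ⟨i, hi, h⟩ := List.mem_iff_getElem.1 hρ
      exact ⟨⟨i, hi⟩, h⟩
    have hC : ∀ γ ∈ Cols L, ∃ i : Fin (Cols L).length, (Cols L)[i] = γ := by
      intro γ hγ
      obtain ⟨i, hi, h⟩ := List.mem_iff_getElem.1 hγ
      exact ⟨⟨i, hi⟩, h⟩
    have r0 := hR _ (mem_Rows.2 (Or.inl ⟨0, by omega, 0, by omega, rfl⟩))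
    have c0 := hC _ (mem_Cols.2 (Or.inl ⟨0, by omega, 0, by omega, rfl⟩))
    haveI : Nonempty (Fin (Rows L).length) := ⟨r0.choose⟩
    haveI : Nonempty (Fin (Cols L).length) := ⟨c0.choose⟩
    choose! f hf using hR
    choose! g hg using hC
    obtain ⟨a, b, h⟩ := is_of_tensors L (fun ρ => A₁ (f ρ)) (fun ρ => A₂ (f ρ))
      (fun γ => B₁ (g γ)) (fun γ => B₂ (g γ)) (fun ρ hρ γ hγ => by
        have h4 := h3 (f ρ) (g γ)
        rw [table_getD _ (f ρ).2 (g γ).2, e1, e2] at h4
        have h5 := hf ρ hρ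
        have h6 := hg γ hγ
        simp only [Fin.getElem_fin] at h5 h6
        rw [h5, h6] at h4
        rw [← h4]
        simp)
    rw [hL] at h
    exact sound h

end Pool.Agent.X246.HDM
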