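import Pool.Agent.X246.HDM.Lin

/-!
# The rank by matrix equations
-/

set_option autoImplicit false

namespace Pool.Agent.X246.HDM

open Finset

theorem right_inv {k n : ℕ} (B : Matrix (Fin k) (Fin n) ℝ) (h : B.rank = k) :
    ∃ R : Matrix (Fin n) (Fin k) ℝ, B * R = 1 := by
  apply Matrix.mulVec_surjective_iff_exists_right_inverse.1
  have h1 : LinearMap.range B.mulVecLin = ⊤ := by
    apply Submodule.eq_top_of_finrank_eq
    rw [Module.finrank_fintype_fun_eq_card, Fintype.card_fin]
    exact h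
  rw [← Matrix.coe_mulVecLin]
  exact LinearMap.range_eq_top.1 h1

theorem rank_iff_mat {m n k : ℕ} (W : Matrix (Fin m) (Fin n) ℝ) : W.rank = k ↔
    ∃ (A : Matrix (Fin m) (Fin k) ℝ) (B : Matrix (Fin k) (Fin n) ℝ)
      (U : Matrix (Fin k) (Fin m) ℝ) (R : Matrix (Fin n) (Fin k) ℝ),
      W = A * B ∧ U * A = 1 ∧ B * R = 1 := by
  constructor
  · intro h
    obtain ⟨a, b, hab⟩ := rank_factor W h
    let A : Matrix (Fin m) (Fin k) ℝ := Matrix.of a
    let B : Matrix (Fin k) (Fin n) ℝ := Matrix.of fun c j => b j c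
    have hW : W = A * B := by
      ext i j
      rw [hab, Matrix.mul_apply]
      rfl
    have hA : A.rank = k := by
      apply le_antisymm (Matrix.rank_le_width A)
      have h5 : W.rank ≤ A.rank := by
        rw [hW]
        exact Matrix.rank_mul_le_left A B
      omega
    have hB : B.rank = k := by
      apply le_antisymm (Matrix.rank_le_height B)
      have h5 : W.rank ≤ B.rank := by
        rw [hW]
        exact Matrix.rank_mul_le_right A B
      omega
    obtain ⟨R, hR⟩ := right_inv B hB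
    obtain ⟨U, hU⟩ := right_inv A.transpose (by rw [Matrix.rank_transpose, hA])
    refine ⟨A, B, U.transpose, R, hW, ?_, hR⟩
    have h1 := congrArg Matrix.transpose hU
    rw [Matrix.transpose_mul, Matrix.transpose_transpose, Matrix.transpose_one] at h1
    exact h1
  · rintro ⟨A, B, U, R, hW, hU, hR⟩
    apply le_antisymm
    · rw [hW]
      exact (Matrix.rank_mul_le_left A B).trans (Matrix.rank_le_width A)
    · have h1 : U * W * R = 1 := by
        rw [hW, ← Matrix.mul_assoc, hU, Matrix.one_mul, hR]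
      have h2 : (1 : Matrix (Fin k) (Fin k) ℝ).rank ≤ W.rank := by
        rw [← h1]
        exact (Matrix.rank_mul_le_left _ _).trans (Matrix.rank_mul_le_right _ _)
      rw [Matrix.rank_one, Fintype.card_fin] at h2
      exact h2

/-- Extension of a matrix by zero. -/
noncomputable def extz {m n : ℕ} (A : Matrix (Fin m) (Fin n) ℝ) (i j : ℕ) : ℝ :=
  if h : i < m ∧ j < n then A ⟨i, h.1⟩ ⟨j, h.2⟩ else 0

theorem extz_fin {m n : ℕ} (A : Matrix (Fin m) (Fin n) ℝ) (i : Fin m) (j : Fin n) :
    extz A i j = A i j := by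
  unfold extz
  rw [dif_pos ⟨i.2, j.2⟩]

theorem sum_extz {m k n : ℕ} (A : Matrix (Fin m) (Fin k) ℝ) (B : Matrix (Fin k) (Fin n) ℝ)
    (i : Fin m) (j : Fin n) : ∑ c ∈ range k, extz A i c * extz B c j = (A * B) i j := by
  rw [← Fin.sum_univ_eq_sum_range (fun c => extz A i c * extz B c j), Matrix.mul_apply]
  refine Finset.sum_congr rfl fun c _ => ?_
  rw [extz_fin, extz_fin]

theorem sum_extz_one {k m : ℕ} {A : Matrix (Fin k) (Fin m) ℝ} {B : Matrix (Fin m) (Fin k) ℝ}
    (h : A * B = 1) {i j : ℕ} (hi : i < k) (hj : j < k) :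
    ∑ c ∈ range m, extz A i c * extz B c j = if i = j then 1 else 0 := by
  have h1 := sum_extz A B ⟨i, hi⟩ ⟨j, hj⟩
  rw [h, Matrix.one_apply] at h1
  simp only [Fin.mk.injEq] at h1
  exact h1

theorem mul_of_sum {k m : ℕ} {a b : ℕ → ℕ → ℝ}
    (h : ∀ i < k, ∀ j < k, ∑ c ∈ range m, a i c * b c j = if i = j then 1 else 0) :
    (Matrix.of fun (i : Fin k) (c : Fin m) => a i c) *
      (Matrix.of fun (c : Fin m) (j : Fin k) => b c j) = 1 := by
  ext i j
  rw [Matrix.mul_apply, Matrix.one_apply]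
  have h1 := h i i.2 j j.2
  rw [← Fin.sum_univ_eq_sum_range (fun c => a i c * b c j)] at h1
  refine Eq.trans h1 ?_
  simp only [Fin.ext_iff]

end Pool.Agent.X246.HDM
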