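import Pool.Agent.X246.HDM.PolyT
import Pool.Agent.X246.HDM.Rank
import Pool.Agent.ER.Rat

/-!
# Hadamard decomposition: membership in `∃ℝ`
-/

set_option autoImplicit false

namespace Pool.Agent.NPC.X246HDM

open Pool.Agent.NPC Pool.Agent.X246.HDM Pool.Agent.NPC.H670R2

/-- Inputs. -/
abbrev Inp : Type := List (List ℚ) × ℕ × ℕ

def nrows (I : Inp) : ℕ := I.1.length
def ncols (I : Inp) : ℕ := (I.1.getD 0 []).length
def k1 (I : Inp) : ℕ := if I.2.1 ≤ nrows I then I.2.1 else nrows I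
def k2 (I : Inp) : ℕ := if I.2.2 ≤ nrows I then I.2.2 else nrows I
def wid (I : Inp) : ℕ := nrows I + ncols I + 1

theorem k1_le (I : Inp) : k1 I ≤ nrows I := by unfold k1; split_ifs <;> omega
theorem k2_le (I : Inp) : k2 I ≤ nrows I := by unfold k2; split_ifs <;> omega

/-- The test whether the input is a table and the ranks are at most the number of rows. -/
def test (I : Inp) : Bool :=
  (I.1.all fun r => decide (r.length = ncols I)) &&
    (decide (I.2.1 ≤ nrows I) && decide (I.2.2 ≤ nrows I))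

theorem test_iff (I : Inp) : test I = true ↔
    IsTable (nrows I) (ncols I) I.1 ∧ I.2.1 ≤ nrows I ∧ I.2.2 ≤ nrows I := by
  unfold test IsTable
  simp only [Bool.and_eq_true, decide_eq_true_eq, List.all_eq_true, nrows, true_and]

/-- Variables. -/
def vr (I : Inp) (t i j : ℕ) : ℕ := 8 * (i * wid I + j) + t

/-- The entry `(i, j)` of the product of the matrices `t` and `t'`. -/
def dotTm (I : Inp) (t t' i j k : ℕ) : ER.Tm :=
  ER.sumTm ((List.range k).map fun c =>
    ER.Tm.mul (ER.Tm.var (vr I t i c)) (ER.Tm.var (vr I t' c j)))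

theorem eval_dotTm (I : Inp) (t t' i j k : ℕ) (x : ℕ → ℝ) :
    (dotTm I t t' i j k).eval x =
      ∑ c ∈ Finset.range k, x (vr I t i c) * x (vr I t' c j) := by
  unfold dotTm
  rw [ER.eval_sumTm, List.map_map, ← X246CMI.sum_map_range]
  rfl

def atomM (I : Inp) (i j : ℕ) : ER.Fm :=
  ER.eqRat (ER.Tm.mul (dotTm I 0 1 i j (k1 I)) (dotTm I 4 5 i j (k2 I)))
    ((I.1.getD i []).getD j 0)

def atomI (I : Inp) (t t' k i j : ℕ) : ER.Fm :=
  ER.Fm.eq (dotTm I t t' i j k) (if i = j then ER.Tm.one else ER.Tm.zero)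

def idAtoms (I : Inp) (t t' k s : ℕ) : List ER.Fm :=
  (List.range s).flatMap fun i => (List.range s).map fun j => atomI I t t' k i j

def atoms (I : Inp) : List ER.Fm :=
  ((List.range (nrows I)).flatMap fun i => (List.range (ncols I)).map fun j => atomM I i j) ++
  (idAtoms I 2 0 (nrows I) (k1 I) ++ (idAtoms I 1 3 (ncols I) (k1 I) ++
    (idAtoms I 6 4 (nrows I) (k2 I) ++ idAtoms I 5 7 (ncols I) (k2 I))))

/-- The formula of an instance. -/
def formula (I : Inp) : ER.Fm := if test I = true then conj (atoms I) else ff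

/-- An identity among the matrices `X t`. -/
def IdX (X : ℕ → ℕ → ℕ → ℝ) (t t' k s : ℕ) : Prop :=
  ∀ i < s, ∀ j < s, ∑ c ∈ Finset.range k, X t i c * X t' c j = if i = j then 1 else 0

/-- All equations. -/
def SysX (I : Inp) (X : ℕ → ℕ → ℕ → ℝ) : Prop :=
  (∀ i < nrows I, ∀ j < ncols I, (∑ c ∈ Finset.range (k1 I), X 0 i c * X 1 c j) *
    (∑ c ∈ Finset.range (k2 I), X 4 i c * X 5 c j) = (((I.1.getD i []).getD j 0 : ℚ) : ℝ)) ∧
  IdX X 2 0 (nrows I) (k1 I) ∧ IdX X 1 3 (ncols I) (k1 I) ∧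
  IdX X 6 4 (nrows I) (k2 I) ∧ IdX X 5 7 (ncols I) (k2 I)

theorem holds_idAtoms (I : Inp) (t t' k s : ℕ) (x : ℕ → ℝ) :
    (∀ φ ∈ idAtoms I t t' k s, φ.Holds x) ↔ IdX (fun t i j => x (vr I t i j)) t t' k s := by
  unfold idAtoms IdX
  have h : ∀ i j, (atomI I t t' k i j).Holds x ↔
      ∑ c ∈ Finset.range k, x (vr I t i c) * x (vr I t' c j) = if i = j then 1 else 0 := by
    intro i j
    unfold atomI
    simp only [ER.Fm.Holds, eval_dotTm]
    have h1 : (if i = j then ER.Tm.one else ER.Tm.zero).eval x = if i = j then (1 : ℝ) else 0 := by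
      split_ifs <;> rfl
    rw [h1]
  constructor
  · intro h0 i hi j hj
    exact (h i j).1 (h0 _ (List.mem_flatMap.2 ⟨i, List.mem_range.2 hi,
      List.mem_map.2 ⟨j, List.mem_range.2 hj, rfl⟩⟩))
  · intro h0 φ hφ
    rw [List.mem_flatMap] at hφ
    obtain ⟨i, hi, hφ⟩ := hφ
    rw [List.mem_map] at hφ
    obtain ⟨j, hj, rfl⟩ := hφ
    exact (h i j).2 (h0 i (List.mem_range.1 hi) j (List.mem_range.1 hj))

theorem holds_atoms (I : Inp) (x : ℕ → ℝ) :
    (conj (atoms I)).Holds x ↔ SysX I (fun t i j => x (vr I t i j)) := by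
  rw [holds_conj]
  unfold atoms SysX
  simp only [List.forall_mem_append]
  rw [holds_idAtoms, holds_idAtoms, holds_idAtoms, holds_idAtoms]
  refine and_congr ?_ Iff.rfl
  have h : ∀ i j, (atomM I i j).Holds x ↔
      (∑ c ∈ Finset.range (k1 I), x (vr I 0 i c) * x (vr I 1 c j)) *
      (∑ c ∈ Finset.range (k2 I), x (vr I 4 i c) * x (vr I 5 c j)) =
        (((I.1.getD i []).getD j 0 : ℚ) : ℝ) := by
    intro i j
    unfold atomM
    rw [ER.holds_eqRat, ER.Tm.eval, eval_dotTm, eval_dotTm]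
  constructor
  · intro h0 i hi j hj
    exact (h i j).1 (h0 _ (List.mem_flatMap.2 ⟨i, List.mem_range.2 hi,
      List.mem_map.2 ⟨j, List.mem_range.2 hj, rfl⟩⟩))
  · intro h0 φ hφ
    rw [List.mem_flatMap] at hφ
    obtain ⟨i, hi, hφ⟩ := hφ
    rw [List.mem_map] at hφ
    obtain ⟨j, hj, rfl⟩ := hφ
    exact (h i j).2 (h0 i (List.mem_range.1 hi) j (List.mem_range.1 hj))

/-- The assignment. -/
noncomputable def asg (w : ℕ) (X : ℕ → ℕ → ℕ → ℝ) (v : ℕ) : ℝ := X (v % 8) (v / 8 / w) (v / 8 % w)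

theorem asg_vr (I : Inp) (X : ℕ → ℕ → ℕ → ℝ) {t j : ℕ} (i : ℕ) (ht : t < 8) (hj : j < wid I) :
    asg (wid I) X (vr I t i j) = X t i j := by
  have hw : 0 < wid I := by omega
  have e0 : vr I t i j % 8 = t := by unfold vr; omega
  have e1 : vr I t i j / 8 = j + i * wid I := by unfold vr; omega
  rw [asg, e0, e1, Nat.add_mul_div_right _ _ hw, Nat.div_eq_of_lt hj, zero_add,
    Nat.add_mul_mod_self_right, Nat.mod_eq_of_lt hj]

theorem IdX.congr {X X' : ℕ → ℕ → ℕ → ℝ} {t t' k s w : ℕ} (h : IdX X t t' k s)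
    (hX : ∀ t < 8, ∀ i, ∀ j < w, X' t i j = X t i j) (ht : t < 8) (ht' : t' < 8) (hk : k ≤ w)
    (hs : s ≤ w) : IdX X' t t' k s := by
  intro i hi j hj
  rw [← h i hi j hj]
  refine Finset.sum_congr rfl fun c hc => ?_
  rw [Finset.mem_range] at hc
  rw [hX t ht i c (by omega), hX t' ht' c j (by omega)]

theorem SysX.congr {I : Inp} {X X' : ℕ → ℕ → ℕ → ℝ} (h : SysX I X)
    (hX : ∀ t < 8, ∀ i, ∀ j < wid I, X' t i j = X t i j) : SysX I X' := by
  obtain ⟨h1, h2, h3, h4, h5⟩ := h
  have e1 := k1_le I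
  have e2 := k2_le I
  have ew : wid I = nrows I + ncols I + 1 := rfl
  refine ⟨?_, h2.congr hX (by norm_num) (by norm_num) (by omega) (by omega),
    h3.congr hX (by norm_num) (by norm_num) (by omega) (by omega),
    h4.congr hX (by norm_num) (by norm_num) (by omega) (by omega),
    h5.congr hX (by norm_num) (by norm_num) (by omega) (by omega)⟩
  intro i hi j hj
  rw [← h1 i hi j hj]
  congr 1
  · refine Finset.sum_congr rfl fun c hc => ?_
    rw [Finset.mem_range] at hc
    rw [hX 0 (by norm_num) i c (by omega), hX 1 (by norm_num) c j (by omega)]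
  · refine Finset.sum_congr rfl fun c hc => ?_
    rw [Finset.mem_range] at hc
    rw [hX 4 (by norm_num) i c (by omega), hX 5 (by norm_num) c j (by omega)]

theorem etr_iff (I : Inp) : ER.ETR (conj (atoms I)) ↔ ∃ X, SysX I X := by
  unfold ER.ETR
  simp only [holds_atoms]
  constructor
  · rintro ⟨x, hx⟩
    exact ⟨_, hx⟩
  · rintro ⟨X, hX⟩
    exact ⟨asg (wid I) X, hX.congr fun t ht i j hj => asg_vr I X i ht hj⟩

theorem ncols_eq {I : Inp} {m n : ℕ} (h : IsTable m n I.1) (h0 : 0 < nrows I) : ncols I = n := by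
  apply h.2
  unfold nrows at h0
  rw [List.getD_eq_getElem _ _ h0]
  exact List.getElem_mem h0

theorem hdec_iff (I : Inp) : HDec I ↔ (IsTable (nrows I) (ncols I) I.1 ∧ I.2.1 ≤ nrows I ∧
    I.2.2 ≤ nrows I) ∧ ∃ M₁ M₂ : Matrix (Fin (nrows I)) (Fin (ncols I)) ℝ,
    M₁.rank = I.2.1 ∧ M₂.rank = I.2.2 ∧
      ∀ (i : Fin (nrows I)) (j : Fin (ncols I)),
        (((I.1.getD i []).getD j 0 : ℚ) : ℝ) = M₁ i j * M₂ i j := by
  constructor
  · rintro ⟨m, n, hT, M₁, M₂, h1, h2, h3⟩
    have hm : nrows I = m := hT.1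
    have b1 : I.2.1 ≤ m := by rw [← h1]; exact Matrix.rank_le_height M₁
    have b2 : I.2.2 ≤ m := by rw [← h2]; exact Matrix.rank_le_height M₂
    by_cases h0 : 0 < nrows I
    · have hn := ncols_eq hT h0
      subst hm hn
      exact ⟨⟨hT, b1, b2⟩, M₁, M₂, h1, h2, h3⟩
    · have hm0 : nrows I = 0 := by omega
      have hI : I.1 = [] := List.length_eq_zero_iff.1 hm0
      refine ⟨⟨⟨rfl, ?_⟩, by omega, by omega⟩, 0, 0, ?_, ?_, ?_⟩
      · intro r hr
        rw [hI] at hr
        exact absurd hr List.not_mem_nil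
      · rw [Matrix.rank_zero]
        omega
      · rw [Matrix.rank_zero]
        omega
      · intro i
        exact absurd i.2 (by omega)
  · rintro ⟨⟨hT, _, _⟩, M₁, M₂, h⟩
    exact ⟨_, _, hT, M₁, M₂, h⟩

theorem formula_iff (I : Inp) : HDec I ↔ ER.ETR (formula I) := by
  rw [hdec_iff, ← test_iff]
  unfold formula
  by_cases ht : test I = true
  · rw [if_pos ht, etr_iff, and_iff_right ht]
    rw [test_iff] at ht
    have e1 : k1 I = I.2.1 := if_pos ht.2.1
    have e2 : k2 I = I.2.2 := if_pos ht.2.2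
    unfold SysX
    rw [e1, e2]
    constructor
    · rintro ⟨M₁, M₂, h1, h2, h3⟩
      obtain ⟨A, B, U, R, hM, hU, hR⟩ := (rank_iff_mat M₁).1 h1
      obtain ⟨A', B', U', R', hM', hU', hR'⟩ := (rank_iff_mat M₂).1 h2
      refine ⟨fun t => if t = 0 then extz A else if t = 1 then extz B else if t = 2 then extz U
        else if t = 3 then extz R else if t = 4 then extz A' else if t = 5 then extz B' else
        if t = 6 then extz U' else extz R', ?_, ?_, ?_, ?_, ?_⟩
      · intro i hi j hj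
        have h4 := h3 ⟨i, hi⟩ ⟨j, hj⟩
        rw [hM, hM', ← sum_extz, ← sum_extz] at h4
        exact h4.symm
      · intro i hi j hj
        exact sum_extz_one hU hi hj
      · intro i hi j hj
        exact sum_extz_one hR hi hj
      · intro i hi j hj
        exact sum_extz_one hU' hi hj
      · intro i hi j hj
        exact sum_extz_one hR' hi hj
    · rintro ⟨X, h1, h2, h3, h4, h5⟩
      refine ⟨_, _, (rank_iff_mat _).2 ⟨Matrix.of fun i c => X 0 i c, Matrix.of fun c j => X 1 c j,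
        _, _, rfl, mul_of_sum h2, mul_of_sum h3⟩, (rank_iff_mat _).2
        ⟨Matrix.of fun i c => X 4 i c, Matrix.of fun c j => X 5 c j, _, _, rfl,
        mul_of_sum h4, mul_of_sum h5⟩, ?_⟩
      intro i j
      have h6 := h1 i i.2 j j.2
      rw [← Fin.sum_univ_eq_sum_range (fun c => X 0 i c * X 1 c j),
        ← Fin.sum_univ_eq_sum_range (fun c => X 4 i c * X 5 c j)] at h6
      rw [Matrix.mul_apply, Matrix.mul_apply]
      exact h6.symm
  · rw [if_neg ht]
    constructor
    · rintro ⟨h, _⟩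
      exact absurd h ht
    · intro h
      exact absurd h not_etr_ff

section Poly

variable {α : Type} [TEnc α]

theorem upoly_nrows : UPoly nrows := UPoly.length (Poly.fst Poly.id)

theorem upoly_ncols : UPoly ncols :=
  UPoly.length (Poly.getD (Poly.fst Poly.id) (Poly.const 0) (Poly.const []))

theorem upoly_k1 : UPoly k1 :=
  UPoly.of_le (Poly.ite (Poly.decide_le (Poly.fst (Poly.snd Poly.id)) upoly_nrows.toPoly)
    (Poly.fst (Poly.snd Poly.id)) upoly_nrows.toPoly) upoly_nrows k1_le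

theorem upoly_k2 : UPoly k2 :=
  UPoly.of_le (Poly.ite (Poly.decide_le (Poly.snd (Poly.snd Poly.id)) upoly_nrows.toPoly)
    (Poly.snd (Poly.snd Poly.id)) upoly_nrows.toPoly) upoly_nrows k2_le

theorem poly_wid : Poly wid :=
  (UPoly.add (UPoly.add upoly_nrows upoly_ncols) (UPoly.const 1)).toPoly

theorem poly_test : Poly test := by
  refine Poly.and (Poly.all (p := fun (I : Inp) (r : List ℚ) => decide (r.length = ncols I))
    (Poly.fst Poly.id) ?_) (Poly.and
    (Poly.decide_le (Poly.fst (Poly.snd Poly.id)) upoly_nrows.toPoly)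
    (Poly.decide_le (Poly.snd (Poly.snd Poly.id)) upoly_nrows.toPoly))
  exact Poly.decide_eq (Poly.length (Poly.snd Poly.id))
    (upoly_ncols.toPoly.comp (Poly.fst Poly.id))

theorem poly_vr {I : α → Inp} {i j : α → ℕ} (t : ℕ) (hI : Poly I) (hi : Poly i) (hj : Poly j) :
    Poly (fun a => vr (I a) t (i a) (j a)) :=
  Poly.add (Poly.mul (Poly.const 8) (Poly.add (Poly.mul hi (poly_wid.comp hI)) hj))
    (Poly.const t)

theorem poly_dotTm {I : α → Inp} {i j k : α → ℕ} (t t' : ℕ) (hI : Poly I) (hi : Poly i)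
    (hj : Poly j) (hk : UPoly k) : Poly (fun a => dotTm (I a) t t' (i a) (j a) (k a)) := by
  refine ER.poly_sumTm ?_
  have hf := Poly.fst (Poly.id (α := α × ℕ))
  have hc := Poly.snd (Poly.id (α := α × ℕ))
  exact Poly.map (F := fun a c => ER.Tm.mul (ER.Tm.var (vr (I a) t (i a) c))
      (ER.Tm.var (vr (I a) t' c (j a)))) hk.range
    (poly_tmul (poly_tvar (poly_vr t (hI.comp hf) (hi.comp hf) hc))
      (poly_tvar (poly_vr t' (hI.comp hf) hc (hj.comp hf))))

theorem poly_atomM {I : α → Inp} {i j : α → ℕ} (hI : Poly I) (hi : Poly i)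
    (hj : Poly j) : Poly (fun a => atomM (I a) (i a) (j a)) :=
  ER.poly_eqRat (poly_tmul (poly_dotTm 0 1 hI hi hj (upoly_k1.comp hI))
    (poly_dotTm 4 5 hI hi hj (upoly_k2.comp hI)))
    (Poly.getD (Poly.getD (Poly.fst hI) hi (Poly.const [])) hj (Poly.const 0))

theorem poly_atomI {I : α → Inp} {i j k : α → ℕ} (t t' : ℕ) (hI : Poly I) (hi : Poly i)
    (hj : Poly j) (hk : UPoly k) : Poly (fun a => atomI (I a) t t' (k a) (i a) (j a)) :=
  poly_eq (poly_dotTm t t' hI hi hj hk)
    (Poly.ite (Poly.decide_eq hi hj) (Poly.const _) (Poly.const _))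

theorem poly_idAtoms {k s : Inp → ℕ} (t t' : ℕ) (hk : UPoly k) (hs : UPoly s) :
    Poly (fun I : Inp => idAtoms I t t' (k I) (s I)) := by
  refine Poly.flatMap (F := fun (I : Inp) i =>
    (List.range (s I)).map fun j => atomI I t t' (k I) i j) hs.range ?_
  refine Poly.map (F := fun (p : Inp × ℕ) j => atomI p.1 t t' (k p.1) p.2 j)
    (hs.comp (Poly.fst Poly.id)).range ?_
  exact poly_atomI t t' (Poly.fst (Poly.fst Poly.id)) (Poly.snd (Poly.fst Poly.id))
    (Poly.snd Poly.id) (hk.comp (Poly.fst (Poly.fst Poly.id)))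

theorem poly_atoms : Poly atoms := by
  refine Poly.append ?_ (Poly.append (poly_idAtoms 2 0 upoly_nrows upoly_k1)
    (Poly.append (poly_idAtoms 1 3 upoly_ncols upoly_k1)
      (Poly.append (poly_idAtoms 6 4 upoly_nrows upoly_k2)
        (poly_idAtoms 5 7 upoly_ncols upoly_k2))))
  refine Poly.flatMap (F := fun (I : Inp) i =>
    (List.range (ncols I)).map fun j => atomM I i j) upoly_nrows.range ?_
  refine Poly.map (F := fun (p : Inp × ℕ) j => atomM p.1 p.2 j)
    (upoly_ncols.comp (Poly.fst Poly.id)).range ?_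
  exact poly_atomM (Poly.fst (Poly.fst Poly.id)) (Poly.snd (Poly.fst Poly.id))
    (Poly.snd Poly.id)

theorem poly_formula : Poly formula :=
  Poly.ite (Poly.decide_bool poly_test) (poly_conj poly_atoms) (Poly.const ff)

end Poly

/-- The Hadamard decomposition problem lies in `∃ℝ`. -/
theorem mem : ER.InER (lang HDec) := ER.InER.of_poly poly_formula formula_iff

end Pool.Agent.NPC.X246HDM
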