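import Pool.Agent.X246.CMI.PolyT
import Pool.Agent.X246.HDM.Main

/-!
# Hadamard decomposition: polynomial time
-/

set_option autoImplicit false

namespace Pool.Agent.NPC.X246HDM

open Pool.Agent.NPC Pool.Agent.X246.CMI Pool.Agent.X246.HDM Pool.Agent.NPC.H670R2
open Pool.Agent.NPC.X246CMI

section Red

variable {α : Type} [TEnc α]

theorem poly_Z {l : α → List D} {i j : α → ℕ} (hl : Poly l) (hi : Poly i) (hj : Poly j) :
    Poly (fun a => decide (Z (l a) (i a) (j a))) := by
  have hm := Poly.length hl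
  refine (Poly.ite (Poly.decide_lt hi hm)
    (Poly.ite (Poly.decide_lt hj hm) (poly_orth (poly_dget hl hi) (poly_dget hl hj))
      (Poly.decide_eq (poly_rsup (Poly.fst (poly_dget hl hi)) (Poly.sub hj hm))
        (Poly.const false)))
    (Poly.ite (Poly.decide_lt hj hm)
      (Poly.decide_eq (poly_csup (Poly.fst (poly_dget hl hj)) (Poly.sub hi hm))
        (Poly.const false))
      (Poly.const true))).congr fun a => ?_
  unfold Z
  split_ifs <;> simp

theorem poly_act {l : α → List D} {i j : α → ℕ} (hl : Poly l) (hi : Poly i) (hj : Poly j) :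
    Poly (fun a => decide (Act (l a) (i a) (j a))) := by
  refine (Poly.decide_or (Poly.decide_eq hi hj) (poly_Z hl hi hj)).congr fun a => ?_
  exact decide_eq_decide.2 Iff.rfl

theorem upoly_nn : UPoly nn := UPoly.add (UPoly.length Poly.id) (UPoly.const 5)

theorem upoly_rr : UPoly rr := UPoly.mul upoly_nn upoly_nn

theorem upoly_kk : UPoly kk := UPoly.add upoly_rr (UPoly.const 1)

theorem poly_nn {l : α → List D} (hl : Poly l) : Poly (fun a => nn (l a)) :=
  upoly_nn.toPoly.comp hl

theorem poly_pos {i j : α → ℕ} (hi : Poly i) (hj : Poly j) : Poly (fun a => pos (i a) (j a)) :=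
  Poly.ite (Poly.decide_eq hi hj) (Poly.const 0) (Poly.const 1)

theorem poly_cR {l : α → List D} {ρ : α → RD} {i b : α → ℕ} (hl : Poly l) (hρ : Poly ρ)
    (hi : Poly i) (hb : Poly b) : Poly (fun a => cR (l a) (ρ a) (i a) (b a)) := by
  have h1 := Poly.fst hρ
  have h2 := Poly.fst (Poly.snd hρ)
  have h3 := Poly.fst (Poly.snd (Poly.snd hρ))
  have h4 := Poly.snd (Poly.snd (Poly.snd hρ))
  refine Poly.ite (Poly.decide_eq h1 (Poly.const 0))
    (Poly.ite (Poly.decide_and (Poly.decide_eq hi h2) (Poly.decide_eq hb h3))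
      (Poly.const 1) (Poly.const 0))
    (Poly.ite (Poly.decide_eq h1 (Poly.const 1))
      (Poly.ite (Poly.decide_eq hb h4)
        (Poly.add (Poly.ite (Poly.decide_eq hi h2) (Poly.const 1) (Poly.const 0))
          (Poly.ite (Poly.decide_eq hi h3) (Poly.const 1) (Poly.const 0))) (Poly.const 0))
      (Poly.ite (Poly.decide_eq h1 (Poly.const 2))
        (Poly.ite (Poly.decide_eq hi (Poly.add h2 (Poly.const 5))) (Poly.const 1) (Poly.const 0))
        (Poly.ite (Poly.decide_and (Poly.decide_and
          (Poly.decide_eq (Poly.div hb (poly_nn hl)) h2)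
          (poly_act hl h2 (Poly.mod hb (poly_nn hl)))) (Poly.decide_eq hi (Poly.const 0)))
          (Poly.const 1) (Poly.const 0))))

theorem poly_cC {l : α → List D} {j i b : α → ℕ} (hl : Poly l) (hj : Poly j)
    (hi : Poly i) (hb : Poly b) : Poly (fun a => cC (l a) (j a) (i a) (b a)) := by
  have hd := Poly.div hb (poly_nn hl)
  have hm := Poly.mod hb (poly_nn hl)
  exact Poly.ite (Poly.decide_and (Poly.decide_and (Poly.decide_eq hm hj) (poly_act hl hd hj))
    (Poly.decide_eq hi (poly_pos hd hj))) (Poly.const 1) (Poly.const 0)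

theorem poly_ent {l : α → List D} {ρ : α → RD} {γ : α → CD} (hl : Poly l) (hρ : Poly ρ)
    (hγ : Poly γ) : Poly (fun a => ent (l a) (ρ a) (γ a)) := by
  have h1 := Poly.fst hρ
  have h2 := Poly.fst (Poly.snd hρ)
  have h3 := Poly.fst (Poly.snd (Poly.snd hρ))
  have h4 := Poly.snd (Poly.snd (Poly.snd hρ))
  have g1 := Poly.fst hγ
  have g2 := Poly.fst (Poly.snd hγ)
  have g3 := Poly.snd (Poly.snd hγ)
  exact Poly.ite (Poly.decide_eq g1 (Poly.const 0)) (poly_cR hl hρ g2 g3)
    (Poly.ite (Poly.decide_eq h1 (Poly.const 0)) (poly_cC hl g2 h2 h3)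
      (Poly.ite (Poly.decide_eq h1 (Poly.const 1))
        (Poly.add (poly_cC hl g2 h2 h4) (poly_cC hl g2 h3 h4))
        (Poly.ite (Poly.decide_eq h1 (Poly.const 2)) (Poly.const 0)
          (Poly.ite (Poly.decide_eq h2 g2) (Poly.const 1) (Poly.const 0)))))

theorem poly_qent {t : α → ℕ} (ht : Poly t) : Poly (fun a => qent (t a)) :=
  Poly.ite (Poly.decide_eq ht (Poly.const 0)) (Poly.const 0)
    (Poly.ite (Poly.decide_eq ht (Poly.const 1)) (Poly.const 1) (Poly.const 2))

theorem poly_priv : Poly (fun L : List D => (List.range (kk L)).flatMap fun l =>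
    (List.range (rr L)).map fun β => ((0, l, β, 0) : RD)) := by
  refine Poly.flatMap (F := fun (L : List D) l =>
    (List.range (rr L)).map fun β => ((0, l, β, 0) : RD)) upoly_kk.range ?_
  refine Poly.map (F := fun (p : List D × ℕ) β => ((0, p.2, β, 0) : RD))
    (upoly_rr.comp (Poly.fst Poly.id)).range ?_
  exact Poly.pair (Poly.const 0) (Poly.pair (Poly.snd (Poly.fst Poly.id))
    (Poly.pair (Poly.snd Poly.id) (Poly.const 0)))

theorem poly_pairs : Poly (fun L : List D => (List.range (kk L)).flatMap fun l =>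
    (List.range (kk L)).flatMap fun l' =>
    (List.range (rr L)).map fun β => ((1, l, l', β) : RD)) := by
  refine Poly.flatMap (F := fun (L : List D) l => (List.range (kk L)).flatMap fun l' =>
    (List.range (rr L)).map fun β => ((1, l, l', β) : RD)) upoly_kk.range ?_
  refine Poly.flatMap (F := fun (p : List D × ℕ) l' =>
    (List.range (rr p.1)).map fun β => ((1, p.2, l', β) : RD))
    (upoly_kk.comp (Poly.fst Poly.id)).range ?_
  refine Poly.map (F := fun (p : (List D × ℕ) × ℕ) β => ((1, p.1.2, p.2, β) : RD))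
    (upoly_rr.comp (Poly.fst (Poly.fst Poly.id))).range ?_
  exact Poly.pair (Poly.const 1) (Poly.pair (Poly.snd (Poly.fst (Poly.fst Poly.id)))
    (Poly.pair (Poly.snd (Poly.fst Poly.id)) (Poly.snd Poly.id)))

theorem poly_glues : Poly (fun L : List D =>
    (List.range (kk L - 5)).map fun k => ((2, k, 0, 0) : RD)) := by
  refine Poly.map (F := fun (_ : List D) k => ((2, k, 0, 0) : RD)) ?_ ?_
  · exact (UPoly.of_le (Poly.sub upoly_kk.toPoly (Poly.const 5)) upoly_kk
      (fun L => Nat.sub_le _ _)).range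
  · exact Poly.pair (Poly.const 2) (Poly.pair (Poly.snd Poly.id) (Poly.const (0, 0)))

theorem poly_shared : Poly (fun L : List D =>
    (List.range (nn L)).map fun i => ((3, i, 0, 0) : RD)) := by
  refine Poly.map (F := fun (_ : List D) k => ((3, k, 0, 0) : RD)) upoly_nn.range ?_
  exact Poly.pair (Poly.const 3) (Poly.pair (Poly.snd Poly.id) (Poly.const (0, 0)))

theorem poly_Rows : Poly Rows :=
  Poly.append poly_priv (Poly.append poly_pairs (Poly.append poly_glues poly_shared))

theorem poly_Cols : Poly Cols := by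
  refine Poly.append ?_ ?_
  · refine Poly.flatMap (F := fun (L : List D) l =>
      (List.range (rr L)).map fun β => ((0, l, β) : CD)) upoly_kk.range ?_
    refine Poly.map (F := fun (p : List D × ℕ) β => ((0, p.2, β) : CD))
      (upoly_rr.comp (Poly.fst Poly.id)).range ?_
    exact Poly.pair (Poly.const 0) (Poly.pair (Poly.snd (Poly.fst Poly.id)) (Poly.snd Poly.id))
  · refine Poly.map (F := fun (_ : List D) k => ((1, k, 0) : CD)) upoly_nn.range ?_
    exact Poly.pair (Poly.const 1) (Poly.pair (Poly.snd Poly.id) (Poly.const 0))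

theorem poly_table : Poly table := by
  refine Poly.map (F := fun (L : List D) ρ => (Cols L).map fun γ => qent (ent L ρ γ))
    poly_Rows ?_
  refine Poly.map (F := fun (p : List D × RD) γ => qent (ent p.1 p.2 γ))
    (poly_Cols.comp (Poly.fst Poly.id)) ?_
  exact poly_qent (poly_ent (Poly.fst (Poly.fst Poly.id)) (Poly.snd (Poly.fst Poly.id))
    (Poly.snd Poly.id))

theorem poly_redH : Poly Pool.Agent.X246.HDM.red :=
  Poly.pair (poly_table.comp poly_descs)
    (Poly.pair (upoly_kk.toPoly.comp poly_descs) (upoly_rr.toPoly.comp poly_descs))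

end Red

/-- The Hadamard decomposition problem is `∃ℝ`-hard. -/
theorem hard : ER.ERHard (lang HDec) := ER.ERHard.of_sys poly_redH Pool.Agent.X246.HDM.sat_iff

end Pool.Agent.NPC.X246HDM
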